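import Pool.Agent.H322Z.GP.Defs

set_option autoImplicit false

/-!
# One transducer suffices; nested idempotent words
-/

namespace Pool.Agent.H322Z.GP

/-- a deterministic transducer on all letters -/
structure Tr (Q : Type) where
  δ : Q → ℕ → Q
  o : Q → ℕ → List ℕ

variable {Q : Type}

def Tr.run (T : Tr Q) : Q → List ℕ → Q
  | q, [] => q
  | q, a :: u => T.run (T.δ q a) u

def Tr.out (T : Tr Q) : Q → List ℕ → List ℕ
  | _, [] => []
  | q, a :: u => T.o q a ++ T.out (T.δ q a) u

theorem Tr.run_append (T : Tr Q) (q : Q) (u v : List ℕ) :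
    T.run q (u ++ v) = T.run (T.run q u) v := by
  induction u generalizing q with
  | nil => rfl
  | cons a u ih => exact ih _

theorem Tr.out_append (T : Tr Q) (q : Q) (u v : List ℕ) :
    T.out q (u ++ v) = T.out q u ++ T.out (T.run q u) v := by
  induction u generalizing q with
  | nil => rfl
  | cons a u ih => simp [Tr.out, Tr.run, ih]

theorem single_tr {L K : Language ℕ} (h : InG L K) :
    ∃ (Q : Type) (_ : Finite Q) (T : Tr Q) (q₀ : Q) (acc : Set Q),
      ∀ u, u ∈ K ↔ T.run q₀ u ∈ acc ∧ T.out q₀ u ∈ L := by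
  induction h with
  | base =>
    refine ⟨Unit, inferInstance, ⟨fun _ _ => (), fun _ a => [a]⟩, (), Set.univ, fun u => ?_⟩
    have : ∀ u : List ℕ, (⟨fun _ _ => (), fun _ a => [a]⟩ : Tr Unit).out () u = u := by
      intro u
      induction u with
      | nil => rfl
      | cons a u ih => simp [Tr.out, ih]
    simp [this]
  | inv M K _ ih =>
    obtain ⟨Q, hQ, T, q₀, acc, h⟩ := ih
    have := M.fin
    let T' : Tr (M.Q × Q × Prop) :=
      ⟨fun s a => (M.step s.1 a, T.run s.2.1 (M.out s.1 a), s.2.2 ∧ a ∈ M.X),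
        fun s a => T.out s.2.1 (M.out s.1 a)⟩
    have h1 : ∀ (u : List ℕ) (p : M.Q) (q : Q) (f : Prop),
        T'.run (p, q, f) u = (M.run p u, T.run q (M.output p u), f ∧ ∀ a ∈ u, a ∈ M.X) ∧
        T'.out (p, q, f) u = T.out q (M.output p u) := by
      intro u
      induction u with
      | nil => intro p q f; simp [Tr.run, Tr.out, AGsm.run, AGsm.output]
      | cons a u ih =>
        intro p q f
        obtain ⟨i1, i2⟩ := ih (M.step p a) (T.run q (M.out p a)) (f ∧ a ∈ M.X)
        constructor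
        · change T'.run (M.step p a, T.run q (M.out p a), f ∧ a ∈ M.X) u = _
          rw [i1]
          simp [AGsm.run, AGsm.output, Tr.run_append, and_assoc]
        · change T.out q (M.out p a) ++ T'.out (M.step p a, T.run q (M.out p a), f ∧ a ∈ M.X) u = _
          rw [i2]
          simp [AGsm.output, Tr.out_append]
    refine ⟨M.Q × Q × Prop, inferInstance, T', (M.start, q₀, True),
      {s | s.1 ∈ M.accept ∧ s.2.1 ∈ acc ∧ s.2.2}, fun u => ?_⟩
    rw [(h1 u _ _ _).1, (h1 u _ _ _).2]
    change ((∀ a ∈ u, a ∈ M.X) ∧ M.run M.start u ∈ M.accept ∧ M.output M.start u ∈ K) ↔ _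
    rw [h]
    simp only [Set.mem_ofPred_eq, true_and]
    tauto

/-- the `n`-th power of a word -/
def pw (y : List ℕ) : ℕ → List ℕ
  | 0 => []
  | n + 1 => y ++ pw y n

theorem pw_add (y : List ℕ) (m n : ℕ) : pw y (m + n) = pw y m ++ pw y n := by
  induction m with
  | zero => simp [pw]
  | succ m ih => rw [Nat.succ_add]; simp [pw, ih]

theorem pw_one (y : List ℕ) : pw y 1 = y := by simp [pw]

theorem pw_succ' (y : List ℕ) (n : ℕ) : pw y (n + 1) = pw y n ++ y := by rw [pw_add, pw_one]

theorem length_pw (y : List ℕ) (n : ℕ) : (pw y n).length = n * y.length := by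
  induction n with
  | zero => simp [pw]
  | succ n ih => simp [pw, ih]; ring

theorem mem_pw {y : List ℕ} {n a : ℕ} (h : a ∈ pw y n) : a ∈ y := by
  induction n with
  | zero => simp [pw] at h
  | succ n ih =>
    rcases List.mem_append.mp h with h | h
    · exact h
    · exact ih h

theorem pw_single (a n : ℕ) : pw [a] n = List.replicate n a := by
  induction n with
  | zero => rfl
  | succ n ih => simp [pw, ih, List.replicate_succ]

theorem pw_mul (y : List ℕ) (m n : ℕ) : pw (pw y m) n = pw y (n * m) := by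
  induction n with
  | zero => simp [pw]
  | succ n ih => rw [pw, ih, ← pw_add]; congr 1; ring

theorem Tr.run_pw_fix (T : Tr Q) {q : Q} {y : List ℕ} (h : T.run q y = q) (n : ℕ) :
    T.run q (pw y n) = q := by
  induction n with
  | zero => rfl
  | succ n ih => rw [pw, T.run_append, h, ih]

theorem Tr.out_pw_fix (T : Tr Q) {q : Q} {y : List ℕ} (h : T.run q y = q) (n : ℕ) :
    T.out q (pw y n) = pw (T.out q y) n := by
  induction n with
  | zero => rfl
  | succ n ih => rw [pw, T.out_append, h, ih, pw]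

theorem Tr.idem [Finite Q] (T : Tr Q) (y : List ℕ) :
    ∃ n, ∀ q, T.run (T.run q (pw y (n + 1))) (pw y (n + 1)) = T.run q (pw y (n + 1)) := by
  obtain ⟨i, j, hij, h⟩ := Finite.exists_ne_map_eq_of_infinite (fun n q => T.run q (pw y n))
  wlog hlt : i < j generalizing i j
  · exact this j i hij.symm h.symm (by omega)
  obtain ⟨d, rfl⟩ : ∃ d, j = i + (d + 1) := ⟨j - i - 1, by omega⟩
  have h1 : ∀ m c q, T.run q (pw y (i + c + m * (d + 1))) = T.run q (pw y (i + c)) := by
    intro m
    induction m with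
    | zero => intro c q; simp
    | succ m ih =>
      intro c q
      have e : i + c + (m + 1) * (d + 1) = i + (d + 1) + (c + m * (d + 1)) := by ring
      have h2 : T.run q (pw y i) = T.run q (pw y (i + (d + 1))) := congrFun h q
      rw [e, pw_add, T.run_append, ← h2, ← T.run_append, ← pw_add, ← add_assoc, ih]
  refine ⟨(i + 1) * (d + 1) - 1, fun q => ?_⟩
  have e0 : (i + 1) * (d + 1) - 1 + 1 = (i + 1) * (d + 1) := by
    have : 0 < (i + 1) * (d + 1) := by positivity
    omega
  obtain ⟨c, hc⟩ : ∃ c, (i + 1) * (d + 1) = i + c := ⟨(i + 1) * (d + 1) - i, by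
    have : i ≤ (i + 1) * (d + 1) := by nlinarith
    omega⟩
  rw [e0, ← T.run_append, ← pw_add]
  have := h1 (i + 1) c q
  rwa [← hc] at this

/-- nested words: `p s` uses the letters `2, …, s + 1`, and `p t` ends with the letter `s + 2`
followed by `p s` if `s < t` -/
theorem nested [Finite Q] (T : Tr Q) : ∃ p : ℕ → List ℕ,
    (∀ s, ∀ a ∈ p s, 2 ≤ a ∧ a < s + 2) ∧
    (∀ s t, s < t → ∃ u, p t = u ++ (s + 2) :: p s) ∧
    (∀ s t, s ≤ t → ∀ q, T.run (T.run q (p t)) (p s) = T.run q (p t)) := by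
  choose n hn using T.idem
  let p : ℕ → List ℕ := fun s => Nat.rec [] (fun s y => pw ((s + 2) :: y) (n ((s + 2) :: y) + 1)) s
  have hp : ∀ s, p (s + 1) = pw ((s + 2) :: p s) (n ((s + 2) :: p s) + 1) := fun s => rfl
  have h2 : ∀ s t, s < t → ∃ u, p t = u ++ (s + 2) :: p s := by
    intro s t hst
    induction t, hst using Nat.le_induction with
    | base => exact ⟨_, by rw [hp, pw_succ']⟩
    | succ t _ ih =>
      obtain ⟨u, hu⟩ := ih
      refine ⟨pw ((t + 2) :: p t) (n ((t + 2) :: p t)) ++ (t + 2) :: u, ?_⟩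
      rw [hp, pw_succ']
      conv_lhs => rw [hu]
      conv_rhs => rw [hu]
      simp
  have h3 : ∀ s q, T.run (T.run q (p s)) (p s) = T.run q (p s) := by
    intro s q
    cases s with
    | zero => rfl
    | succ s => rw [hp]; exact hn _ q
  refine ⟨p, fun s => ?_, h2, fun s t hst q => ?_⟩
  · induction s with
    | zero => intro a ha; simp [p] at ha
    | succ s ih =>
      intro a ha
      rw [hp] at ha
      rcases List.mem_cons.mp (mem_pw ha) with h | h
      · omega
      · have := ih a h; omega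
  · rcases eq_or_lt_of_le hst with rfl | h
    · exact h3 s q
    · obtain ⟨u, hu⟩ := h2 s t h
      have e : u ++ (s + 2) :: p s = (u ++ [s + 2]) ++ p s := by simp
      rw [hu, e, T.run_append, h3]

theorem exists_path {α : Type*} {r : α → α → Prop} {a b : α} (h : Relation.ReflTransGen r a b) :
    ∃ (n : ℕ) (f : ℕ → α), f 0 = a ∧ f n = b ∧ ∀ i < n, r (f i) (f (i + 1)) := by
  induction h using Relation.ReflTransGen.head_induction_on with
  | refl => exact ⟨0, fun _ => b, rfl, rfl, fun i hi => by omega⟩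
  | @head x y hxy _ ih =>
    obtain ⟨n, f, h0, hn, hs⟩ := ih
    refine ⟨n + 1, fun i => Nat.casesOn i x f, rfl, hn, fun i hi => ?_⟩
    cases i with
    | zero => simpa [h0] using hxy
    | succ i => exact hs i (by omega)

theorem path_seg {α : Type*} {r : α → α → Prop} {n : ℕ} {f : ℕ → α}
    (hs : ∀ i < n, r (f i) (f (i + 1))) {i j : ℕ} (hij : i ≤ j) (hj : j ≤ n) :
    Relation.ReflTransGen r (f i) (f j) := by
  induction j, hij using Nat.le_induction with
  | base => exact Relation.ReflTransGen.refl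
  | succ j _ ih => exact (ih (by omega)).tail (hs j (by omega))

/-- pigeonhole on an initial segment -/
theorem pigeon {C : Type*} [Finite C] (κ : ℕ → C) :
    ∃ i j, i < j ∧ j ≤ Nat.card C ∧ κ i = κ j := by
  have := Fintype.ofFinite C
  obtain ⟨i, j, hij, h⟩ := Fintype.exists_ne_map_eq_of_card_lt
    (fun i : Fin (Nat.card C + 1) => κ i) (by simp)
  rcases lt_or_gt_of_ne hij with h1 | h1
  · exact ⟨i, j, h1, by omega, h⟩
  · exact ⟨j, i, h1, by omega, h.symm⟩

/-- a sequence that climbs a lot with bounded steps has an increasing repetition of colours -/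
theorem up_cycle {C : Type*} [Finite C] (κ : ℕ → C) (f : ℕ → ℤ) (k : ℕ) (hk : 1 ≤ k) (a b : ℕ)
    (hab : a ≤ b) (hstep : ∀ t, a ≤ t → t < b → f (t + 1) ≤ f t + k)
    (h : f a + Nat.card C * k ≤ f b) :
    ∃ s s', a ≤ s ∧ s < s' ∧ s' ≤ b ∧ κ s = κ s' ∧ f s < f s' := by
  classical
  have hex : ∀ i : ℕ, ∃ s, (a ≤ s ∧ f a + i * k ≤ f s) ∨ s = b := fun i => ⟨b, Or.inr rfl⟩
  set g : ℕ → ℕ := fun i => Nat.find (hex i) with hg
  have hk0 : (0 : ℤ) < k := by exact_mod_cast hk
  have h1 : ∀ i ≤ Nat.card C, a ≤ g i ∧ g i ≤ b ∧ f a + i * k ≤ f (g i) ∧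
      f (g i) < f a + (i + 1) * k := by
    intro i hi
    have hb : g i ≤ b := Nat.find_min' (hex i) (Or.inr rfl)
    have hi' : (i : ℤ) * k ≤ Nat.card C * k :=
      mul_le_mul_of_nonneg_right (by exact_mod_cast hi) hk0.le
    have h2 : a ≤ g i ∧ f a + i * k ≤ f (g i) := by
      rcases Nat.find_spec (hex i) with h2 | h2
      · exact h2
      · have h3 : g i = b := h2
        rw [h3]
        exact ⟨hab, by linarith⟩
    refine ⟨h2.1, hb, h2.2, ?_⟩
    rcases eq_or_lt_of_le h2.1 with h3 | h3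
    · rw [← h3]
      have : (0 : ℤ) ≤ i * k := by positivity
      linarith
    · obtain ⟨t, ht⟩ : ∃ t, g i = t + 1 := ⟨g i - 1, by omega⟩
      have h4 := Nat.find_min (hex i) (show t < g i by omega)
      push Not at h4
      have h5 := h4.1 (by omega)
      have h6 := hstep t (by omega) (by omega)
      rw [ht]
      linarith
  obtain ⟨i, j, hij, hj, hc⟩ := pigeon (fun i => κ (g i))
  obtain ⟨a1, a2, a3, a4⟩ := h1 i (by omega)
  obtain ⟨b1, b2, b3, b4⟩ := h1 j hj
  have h2 : ((i : ℤ) + 1) * k ≤ j * k :=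
    mul_le_mul_of_nonneg_right (by exact_mod_cast hij) hk0.le
  have h3 : f (g i) < f (g j) := by linarith
  have h4 : g i ≤ g j := Nat.find_min' (hex i) (Or.inl ⟨b1, by linarith⟩)
  refine ⟨g i, g j, a1, lt_of_le_of_ne h4 fun h5 => ?_, b2, hc, h3⟩
  rw [h5] at h3
  exact lt_irrefl _ h3

end Pool.Agent.H322Z.GP
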