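import Mathlib

set_option autoImplicit false

/-!
# a-gsm mappings, the family `G(L)`, linear languages and restricted one-counter languages

Letters are natural numbers; a finite alphabet is a finite set of natural numbers.
-/

namespace Pool.Agent.H322Z.GP

/-- A deterministic generalised sequential machine with accepting states (a-gsm): a finite input
alphabet, finitely many states, a transition function, an output function (a possibly empty word
for each state and input letter) and a set of accepting states. -/
structure AGsm where
  /-- the input alphabet -/
  X : Finset ℕ
  /-- the states -/
  Q : Type
  /-- there are finitely many states -/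
  fin : Finite Q
  /-- the initial state -/
  start : Q
  /-- the transition function -/
  step : Q → ℕ → Q
  /-- the word written when a letter is read in a state -/
  out : Q → ℕ → List ℕ
  /-- the accepting states -/
  accept : Set Q

/-- The state reached from `q` after reading a word. -/
def AGsm.run (M : AGsm) : M.Q → List ℕ → M.Q
  | q, [] => q
  | q, a :: u => M.run (M.step q a) u

/-- The word written when a word is read from the state `q`. -/
def AGsm.output (M : AGsm) : M.Q → List ℕ → List ℕ
  | _, [] => []
  | q, a :: u => M.out q a ++ M.output (M.step q a) u

/-- The inverse image `τ⁻¹(L)` of a language under the mapping `τ` of an a-gsm: the words over the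
input alphabet on which the run ends in an accepting state and whose output lies in `L`. -/
def AGsm.inv (M : AGsm) (L : Language ℕ) : Language ℕ :=
  {u | (∀ a ∈ u, a ∈ M.X) ∧ M.run M.start u ∈ M.accept ∧ M.output M.start u ∈ L}

/-- `InG L K`: the language `K` belongs to `G(L)`, the smallest family of languages that contains
`L` and is closed under inverse a-gsm mappings. -/
inductive InG (L : Language ℕ) : Language ℕ → Prop
  | base : InG L L
  | inv (M : AGsm) (K : Language ℕ) : InG L K → InG L (M.inv K)

/-- Whether a grammar symbol is a nonterminal. -/
def isNT {N : Type} : Symbol ℕ N → Bool
  | Symbol.terminal _ => false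
  | Symbol.nonterminal _ => true

/-- A language is linear if it is generated by a context-free grammar in which every right-hand
side contains at most one nonterminal. -/
def IsLinear (L : Language ℕ) : Prop :=
  ∃ g : ContextFreeGrammar ℕ, (∀ r ∈ g.rules, r.output.countP isNT ≤ 1) ∧ g.language = L

/-- A nondeterministic pushdown automaton with a single pushdown symbol `Z`.  A transition
`(p, a, p', k)` is: in state `p`, read the letter `a` (or nothing, if `a = none`), pop one `Z`,
push `k` copies of `Z` and go to state `p'`. -/
structure OnePDA where
  /-- the states -/
  Q : Type
  /-- there are finitely many states -/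
  fin : Finite Q
  /-- the initial state -/
  start : Q
  /-- the transitions -/
  trans : Set (Q × Option ℕ × Q × ℕ)
  /-- there are finitely many transitions -/
  fin_trans : trans.Finite
  /-- the final states -/
  final : Set Q

/-- One move between configurations (state, height of the pushdown store, unread input). -/
inductive OnePDA.Step (M : OnePDA) : M.Q × ℕ × List ℕ → M.Q × ℕ × List ℕ → Prop
  | eps {p p' : M.Q} {k : ℕ} (h : ℕ) (w : List ℕ) :
      (p, none, p', k) ∈ M.trans → Step M (p, h + 1, w) (p', h + k, w)
  | read {p p' : M.Q} {a k : ℕ} (h : ℕ) (w : List ℕ) :
      (p, some a, p', k) ∈ M.trans → Step M (p, h + 1, a :: w) (p', h + k, w)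

/-- The language accepted, starting with one `Z`, by final state and empty pushdown store. -/
def OnePDA.language (M : OnePDA) : Language ℕ :=
  {w | ∃ f ∈ M.final, Relation.ReflTransGen M.Step (M.start, 1, w) (f, 0, [])}

/-- The (restricted) one-counter languages. -/
def IsRoc (L : Language ℕ) : Prop := ∃ M : OnePDA, M.language = L

end Pool.Agent.H322Z.GP
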