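import Pool.Agent.H322Z.GP.RocB

set_option autoImplicit false

/-!
# Linear grammars as two-ended automata
-/

namespace Pool.Agent.H322Z.GP

open Relation

/-- the sentential form `x B y` -/
def sf {N : Type} (x : List ℕ) (B : N) (y : List ℕ) : List (Symbol ℕ N) :=
  x.map Symbol.terminal ++ Symbol.nonterminal B :: y.map Symbol.terminal

theorem map_terminal_inj {N : Type} {x y : List ℕ}
    (h : x.map (Symbol.terminal : ℕ → Symbol ℕ N) = y.map Symbol.terminal) : x = y :=
  List.map_injective_iff.mpr (fun _ _ h => Symbol.terminal.inj h) h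

theorem sf_parts {N : Type} {x y : List ℕ} {B A : N} {p q : List (Symbol ℕ N)}
    (h : sf x B y = p ++ Symbol.nonterminal A :: q) :
    p = x.map Symbol.terminal ∧ A = B ∧ q = y.map Symbol.terminal := by
  by_cases hAB : True
  · have h1 := (List.append_cons_inj_of_notMem (a₂ := Symbol.nonterminal A)
      (x₁ := x.map Symbol.terminal) (z₁ := y.map Symbol.terminal) (a₁ := Symbol.nonterminal B)
      (x₂ := p) (z₂ := q) (by simp) (by simp)).mp h
    exact ⟨h1.1.symm, (Symbol.nonterminal.inj h1.2.1).symm, h1.2.2.symm⟩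
  · exact absurd trivial hAB

theorem sf_inj {N : Type} {x y x' y' : List ℕ} {B B' : N} (h : sf x B y = sf x' B' y') :
    x = x' ∧ B = B' ∧ y = y' := by
  obtain ⟨h1, h2, h3⟩ := sf_parts h
  exact ⟨(map_terminal_inj h1).symm, h2.symm, (map_terminal_inj h3).symm⟩

theorem sf_ne {N : Type} {x y w : List ℕ} {B : N} : sf x B y ≠ w.map Symbol.terminal := by
  intro h
  have : Symbol.nonterminal B ∈ sf x B y := by simp [sf]
  rw [h] at this
  simp at this

theorem shape_zero {N : Type} (o : List (Symbol ℕ N)) (h : o.countP isNT = 0) :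
    ∃ x : List ℕ, o = x.map Symbol.terminal := by
  induction o with
  | nil => exact ⟨[], rfl⟩
  | cons s o ih =>
    cases s with
    | terminal a =>
      obtain ⟨x, rfl⟩ := ih (by simpa [isNT] using h)
      exact ⟨a :: x, rfl⟩
    | nonterminal B => simp [isNT] at h

theorem shape {N : Type} (o : List (Symbol ℕ N)) (h : o.countP isNT ≤ 1) :
    (∃ x : List ℕ, o = x.map Symbol.terminal) ∨ ∃ x B y, o = sf x B y := by
  induction o with
  | nil => exact Or.inl ⟨[], rfl⟩
  | cons s o ih =>
    cases s with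
    | terminal a =>
      rcases ih (by simpa [isNT] using h) with ⟨x, rfl⟩ | ⟨x, B, y, rfl⟩
      · exact Or.inl ⟨a :: x, rfl⟩
      · exact Or.inr ⟨a :: x, B, y, rfl⟩
    | nonterminal B =>
      have h1 : o.countP isNT = 0 := by
        rw [List.countP_cons_of_pos (by rfl)] at h
        omega
      obtain ⟨y, rfl⟩ := shape_zero o h1
      exact Or.inr ⟨[], B, y, rfl⟩

/-- linear derivations -/
inductive LD (g : ContextFreeGrammar ℕ) : g.NT → List ℕ → Prop
  | term (r : ContextFreeRule ℕ g.NT) (x : List ℕ) : r ∈ g.rules →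
      r.output = x.map Symbol.terminal → LD g r.input x
  | lin (r : ContextFreeRule ℕ g.NT) (x : List ℕ) (B : g.NT) (y w : List ℕ) : r ∈ g.rules →
      r.output = sf x B y → LD g B w → LD g r.input (x ++ w ++ y)

theorem LD.derives {g : ContextFreeGrammar ℕ} {A : g.NT} {w : List ℕ} (h : LD g A w) :
    g.Derives [Symbol.nonterminal A] (w.map Symbol.terminal) := by
  induction h with
  | term r x hr ho =>
    rw [← ho]
    exact ContextFreeGrammar.Produces.single ⟨r, hr, ContextFreeRule.Rewrites.input_output⟩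
  | lin r x B y w hr ho _ ih =>
    refine ContextFreeGrammar.Produces.trans_derives
      ⟨r, hr, ContextFreeRule.Rewrites.input_output⟩ ?_
    rw [ho]
    have := (ih.append_left (x.map Symbol.terminal)).append_right (y.map Symbol.terminal)
    simpa [sf] using this

theorem derives_LD {g : ContextFreeGrammar ℕ} (hg : ∀ r ∈ g.rules, r.output.countP isNT ≤ 1)
    {s : List (Symbol ℕ g.NT)} {w : List ℕ} (h : g.Derives s (w.map Symbol.terminal)) :
    (∀ x : List ℕ, s = x.map Symbol.terminal → w = x) ∧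
      ∀ x A y, s = sf x A y → ∃ w', w = x ++ w' ++ y ∧ LD g A w' := by
  induction h using ReflTransGen.head_induction_on with
  | refl => exact ⟨fun x hx => map_terminal_inj hx, fun x A y hx => absurd hx.symm sf_ne⟩
  | @head s s' hss _ ih =>
    obtain ⟨r, hr, hrw⟩ := hss
    obtain ⟨p, q, h1, h2⟩ := hrw.exists_parts
    constructor
    · intro x hx
      have : Symbol.nonterminal r.input ∈ s := by rw [h1]; simp
      rw [hx] at this
      simp at this
    · intro x A y hx
      rw [hx, List.append_assoc, List.singleton_append] at h1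
      obtain ⟨rfl, rfl, rfl⟩ := sf_parts h1
      rcases shape r.output (hg r hr) with ⟨z, hz⟩ | ⟨z, B, z', hz⟩
      · exact ⟨z, ih.1 (x ++ z ++ y) (by rw [h2, hz]; simp), LD.term r z hr hz⟩
      · obtain ⟨w', h3, h4⟩ := ih.2 (x ++ z) B (z' ++ y) (by rw [h2, hz]; simp [sf])
        exact ⟨z ++ w' ++ z', by rw [h3]; simp, LD.lin r z B z' w' hr hz h4⟩

theorem mem_iff_LD {g : ContextFreeGrammar ℕ} (hg : ∀ r ∈ g.rules, r.output.countP isNT ≤ 1)
    (w : List ℕ) : w ∈ g.language ↔ LD g g.initial w := by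
  rw [ContextFreeGrammar.mem_language_iff]
  refine ⟨fun h => ?_, LD.derives⟩
  obtain ⟨w', h1, h2⟩ := (derives_LD hg h).2 [] g.initial [] rfl
  simpa [h1] using h2

/-- one move of a two-ended automaton on (state, letters read on the left, on the right) -/
def Mv {St : Type} (tr : St → List ℕ → List ℕ → St → Prop) (a b : St × List ℕ × List ℕ) : Prop :=
  ∃ x y, tr a.1 x y b.1 ∧ b.2.1 = a.2.1 ++ x ∧ b.2.2 = y ++ a.2.2

theorem mv_shift {St : Type} {tr : St → List ℕ → List ℕ → St → Prop} {a b : St × List ℕ × List ℕ}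
    (h : ReflTransGen (Mv tr) a b) : ∃ x y, b.2.1 = a.2.1 ++ x ∧ b.2.2 = y ++ a.2.2 ∧
      ∀ γ δ, ReflTransGen (Mv tr) (a.1, γ, δ) (b.1, γ ++ x, y ++ δ) := by
  induction h with
  | refl => exact ⟨[], [], by simp, by simp, fun γ δ => by simpa using ReflTransGen.refl⟩
  | tail _ h2 ih =>
    obtain ⟨x, y, h3, h4, h5⟩ := ih
    obtain ⟨x', y', h6, h7, h8⟩ := h2
    refine ⟨x ++ x', y' ++ y, by rw [h7, h3]; simp, by rw [h8, h4]; simp, fun γ δ => ?_⟩
    exact (h5 γ δ).tail ⟨x', y', h6, by simp, by simp⟩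

/-- transitions on dotted right-hand sides -/
inductive RawTr (g : ContextFreeGrammar ℕ) : List ℕ × Option g.NT × List ℕ → List ℕ → List ℕ →
    List ℕ × Option g.NT × List ℕ → Prop
  | left (a : ℕ) (x : List ℕ) (o : Option g.NT) (y : List ℕ) :
      RawTr g (a :: x, o, y) [a] [] (x, o, y)
  | right (a : ℕ) (o : Option g.NT) (y : List ℕ) : RawTr g ([], o, y ++ [a]) [] [a] ([], o, y)
  | term (r : ContextFreeRule ℕ g.NT) (x : List ℕ) : r ∈ g.rules →
      r.output = x.map Symbol.terminal → RawTr g ([], some r.input, []) [] [] (x, none, [])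
  | lin (r : ContextFreeRule ℕ g.NT) (x : List ℕ) (B : g.NT) (y : List ℕ) : r ∈ g.rules →
      r.output = sf x B y → RawTr g ([], some r.input, []) [] [] (x, some B, y)

/-- meaning of a dotted right-hand side -/
def Sem (g : ContextFreeGrammar ℕ) (s : List ℕ × Option g.NT × List ℕ) (w : List ℕ) : Prop :=
  ∃ w', w = s.1 ++ w' ++ s.2.2 ∧ (s.2.1 = none → w' = []) ∧ ∀ A, s.2.1 = some A → LD g A w'

theorem raw_sound {g : ContextFreeGrammar ℕ} {s s' : List ℕ × Option g.NT × List ℕ}
    {x y w : List ℕ} (h : RawTr g s x y s') (hw : Sem g s' w) : Sem g s (x ++ w ++ y) := by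
  obtain ⟨w', rfl, h1, h2⟩ := hw
  cases h with
  | left a x o y => exact ⟨w', by simp, h1, h2⟩
  | right a o y => exact ⟨w', by simp, h1, h2⟩
  | term r x hr ho =>
    refine ⟨x, by simp [h1 rfl], by simp, fun A hA => ?_⟩
    obtain rfl : r.input = A := Option.some.inj hA
    exact LD.term r x hr ho
  | lin r x B y hr ho =>
    refine ⟨x ++ w' ++ y, by simp, by simp, fun A hA => ?_⟩
    obtain rfl : r.input = A := Option.some.inj hA
    exact LD.lin r x B y w' hr ho (h2 B rfl)

theorem raw_left {g : ContextFreeGrammar ℕ} (x : List ℕ) (o : Option g.NT) (y : List ℕ) :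
    ∀ γ δ, ReflTransGen (Mv (RawTr g)) ((x, o, y), γ, δ) (([], o, y), γ ++ x, δ) := by
  induction x with
  | nil => intro γ δ; simpa using ReflTransGen.refl
  | cons a x ih =>
    intro γ δ
    have := ih (γ ++ [a]) δ
    rw [List.append_assoc, List.singleton_append] at this
    exact this.head ⟨[a], [], RawTr.left a x o y, rfl, rfl⟩

theorem raw_right {g : ContextFreeGrammar ℕ} (o : Option g.NT) (y : List ℕ) :
    ∀ γ δ, ReflTransGen (Mv (RawTr g)) (([], o, y), γ, δ) (([], o, []), γ, y ++ δ) := by
  induction y using List.reverseRecOn with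
  | nil => intro γ δ; exact ReflTransGen.refl
  | append_singleton y a ih =>
    intro γ δ
    have := ih γ (a :: δ)
    rw [List.append_assoc, List.singleton_append]
    exact this.head ⟨[], [a], RawTr.right a o y, by simp, rfl⟩

theorem raw_complete {g : ContextFreeGrammar ℕ} {A : g.NT} {w : List ℕ} (h : LD g A w) :
    ∃ x y, w = x ++ y ∧ ∀ γ δ, ReflTransGen (Mv (RawTr g)) (([], some A, []), γ, δ)
      (([], none, []), γ ++ x, y ++ δ) := by
  induction h with
  | term r x hr ho =>
    exact ⟨x, [], by simp, fun γ δ =>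
      (raw_left x none [] γ δ).head ⟨[], [], RawTr.term r x hr ho, by simp, rfl⟩⟩
  | lin r x B y w hr ho _ ih =>
    obtain ⟨x', y', rfl, h⟩ := ih
    refine ⟨x ++ x', y' ++ y, by simp, fun γ δ => ?_⟩
    have := ((raw_left x (some B) y γ δ).trans (raw_right (some B) y _ δ)).trans (h _ _)
    rw [List.append_assoc, ← List.append_assoc y'] at this
    exact this.head ⟨[], [], RawTr.lin r x B y hr ho, by simp, rfl⟩

/-- the finitely many useful dotted right-hand sides -/
def Useful (g : ContextFreeGrammar ℕ) (s : List ℕ × Option g.NT × List ℕ) : Prop :=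
  s = ([], some g.initial, []) ∨ ∃ r ∈ g.rules,
    List.Sublist (s.1.map Symbol.terminal) r.output ∧
    (∀ A, s.2.1 = some A → Symbol.nonterminal A ∈ r.output) ∧
    List.Sublist (s.2.2.map Symbol.terminal) r.output

theorem useful_finite (g : ContextFreeGrammar ℕ) : {s | Useful g s}.Finite := by
  have h1 : ∀ o : List (Symbol ℕ g.NT),
      {x : List ℕ | List.Sublist (x.map Symbol.terminal) o}.Finite := by
    intro o
    refine Set.Finite.of_finite_image (f := List.map Symbol.terminal)
      ((List.finite_toSet o.sublists).subset ?_) (fun _ _ _ _ h => map_terminal_inj h)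
    rintro _ ⟨x, hx, rfl⟩
    exact List.mem_sublists.mpr hx
  have h2 : ∀ o : List (Symbol ℕ g.NT),
      {x : Option g.NT | ∀ A, x = some A → Symbol.nonterminal A ∈ o}.Finite := by
    intro o
    have h3 : {A : g.NT | Symbol.nonterminal A ∈ o}.Finite :=
      Set.Finite.of_finite_image (f := (Symbol.nonterminal : g.NT → Symbol ℕ g.NT))
        ((List.finite_toSet o).subset (by rintro _ ⟨x, hx, rfl⟩; exact hx))
        (fun _ _ _ _ h => Symbol.nonterminal.inj h)
    refine ((h3.image some).insert none).subset ?_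
    intro x hx
    cases x with
    | none => simp
    | some A => exact Or.inr ⟨A, hx A rfl, rfl⟩
  refine ((Set.Finite.biUnion g.rules.finite_toSet (fun r _ =>
    (h1 r.output).prod ((h2 r.output).prod (h1 r.output)))).insert
      ([], some g.initial, [])).subset ?_
  rintro s (h | ⟨r, hr, h3, h4, h5⟩)
  · exact Or.inl h
  · exact Or.inr (Set.mem_biUnion hr ⟨h3, h4, h5⟩)

theorem useful_step {g : ContextFreeGrammar ℕ} {s s' : List ℕ × Option g.NT × List ℕ}
    {x y : List ℕ} (h : RawTr g s x y s') (hs : Useful g s) : Useful g s' := by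
  cases h with
  | left a x o y =>
    rcases hs with h | ⟨r, hr, h3, h4, h5⟩
    · simp at h
    · exact Or.inr ⟨r, hr, (List.sublist_cons_self _ _).trans h3, h4, h5⟩
  | right a o y =>
    rcases hs with h | ⟨r, hr, h3, h4, h5⟩
    · simp at h
    · exact Or.inr ⟨r, hr, h3, h4, ((List.sublist_append_left _ _).map _).trans h5⟩
  | term r x hr ho => exact Or.inr ⟨r, hr, by rw [ho], by simp, by simp⟩
  | lin r x B y hr ho =>
    refine Or.inr ⟨r, hr, ?_, ?_, ?_⟩
    · rw [ho]; exact List.sublist_append_left _ _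
    · intro A hA
      obtain rfl : B = A := Option.some.inj hA
      rw [ho]; simp [sf]
    · rw [ho]; exact (List.sublist_cons_self _ _).trans (List.sublist_append_right _ _)

theorem linear_aut {L : Language ℕ} (hL : IsLinear L) :
    ∃ (St : Type) (_ : Finite St) (tr : St → List ℕ → List ℕ → St → Prop) (s₀ : St) (fin : Set St),
      (∀ A x y B, tr A x y B → x.length ≤ 1 ∧ y.length ≤ 1) ∧
      ∀ w, w ∈ L ↔ ∃ B ∈ fin, ∃ x y, w = x ++ y ∧ ReflTransGen (Mv tr) (s₀, [], []) (B, x, y) := by
  obtain ⟨g, hg, rfl⟩ := hL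
  refine ⟨{s | Useful g s}, useful_finite g, fun A x y B => RawTr g A.1 x y B.1,
    ⟨([], some g.initial, []), Or.inl rfl⟩, {B | B.1 = ([], none, [])}, ?_, fun w => ?_⟩
  · rintro ⟨A, _⟩ x y ⟨B, _⟩ h
    cases h <;> simp
  rw [mem_iff_LD hg]
  constructor
  · intro h
    obtain ⟨x, y, rfl, h'⟩ := raw_complete h
    have h1 := h' [] []
    rw [List.nil_append, List.append_nil] at h1
    have key : ∀ b, ReflTransGen (Mv (RawTr g)) (([], some g.initial, []), [], []) b →
        ∃ hb : Useful g b.1, ReflTransGen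
          (Mv (fun (A : {s | Useful g s}) x y (B : {s | Useful g s}) => RawTr g A.1 x y B.1))
          (⟨([], some g.initial, []), Or.inl rfl⟩, [], []) (⟨b.1, hb⟩, b.2) := by
      intro b hb
      induction hb with
      | refl => exact ⟨Or.inl rfl, ReflTransGen.refl⟩
      | tail _ h2 ih =>
        obtain ⟨hb, h3⟩ := ih
        obtain ⟨x, y, h4, h5, h6⟩ := h2
        exact ⟨useful_step h4 hb, h3.tail ⟨x, y, h4, h5, h6⟩⟩
    obtain ⟨hb, h2⟩ := key _ h1
    exact ⟨_, rfl, x, y, rfl, h2⟩
  · rintro ⟨B, hB, x, y, rfl, h⟩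
    have key : ∀ b : {s | Useful g s} × List ℕ × List ℕ, ReflTransGen
        (Mv (fun (A : {s | Useful g s}) x y (B : {s | Useful g s}) => RawTr g A.1 x y B.1))
        (⟨([], some g.initial, []), Or.inl rfl⟩, [], []) b →
        ∀ w, Sem g b.1.1 w → Sem g ([], some g.initial, []) (b.2.1 ++ w ++ b.2.2) := by
      intro b hb
      induction hb with
      | refl => intro w hw; simpa using hw
      | tail _ h2 ih =>
        obtain ⟨x, y, h4, h5, h6⟩ := h2
        intro w hw
        have := ih _ (raw_sound h4 hw)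
        rw [h5, h6]
        simpa using this
    have hB' : B.1 = ([], none, []) := hB
    obtain ⟨w', h1, -, h2⟩ := key _ h [] ⟨[], by simp [hB'], by simp, by simp [hB']⟩
    have h3 : x ++ y = w' := by simpa using h1
    rw [h3]
    exact h2 _ rfl

end Pool.Agent.H322Z.GP
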