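import Pool.Agent.H322Z.GP.LinA

set_option autoImplicit false

/-!
# A pumping lemma for two-ended automata
-/

namespace Pool.Agent.H322Z.GP

open Relation

theorem pw_del {Z γ y β : List ℕ} {c d : ℕ} (h : pw Z (c + d) = γ ++ y ++ β)
    (hy : y.length = d * Z.length) : γ ++ β = pw Z c := by
  have hl := congrArg List.length h
  rw [length_pw, List.length_append, List.length_append, add_mul] at hl
  have h1 : γ <+: pw Z c := by
    refine List.prefix_of_prefix_length_le (l₃ := pw Z (c + d)) ⟨y ++ β, by rw [h]; simp⟩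
      ⟨pw Z d, (pw_add _ _ _).symm⟩ ?_
    rw [length_pw]
    omega
  obtain ⟨ρ, hρ⟩ := h1
  rw [add_comm, pw_add, ← hρ, ← List.append_assoc] at h
  have h2 := (List.append_inj h (by simp [length_pw, hy, add_comm])).2
  rw [← hρ, h2]

theorem pw_del' {U Z W μ y δ : List ℕ} {c d : ℕ} (h : U ++ pw Z (c + d) ++ W = μ ++ y ++ δ)
    (hy : y.length = d * Z.length) (h1 : U.length ≤ μ.length) (h2 : W.length ≤ δ.length) :
    μ ++ δ = U ++ pw Z c ++ W := by
  obtain ⟨γ, rfl⟩ : U <+: μ := List.prefix_of_prefix_length_le (l₃ := μ ++ y ++ δ)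
    ⟨pw Z (c + d) ++ W, by rw [← h]; simp⟩ ⟨y ++ δ, by simp⟩ h1
  obtain ⟨β, rfl⟩ : W <:+ δ := List.suffix_of_suffix_length_le (l₃ := U ++ γ ++ y ++ δ)
    ⟨U ++ pw Z (c + d), h⟩ ⟨U ++ γ ++ y, rfl⟩ h2
  have h3 : pw Z (c + d) = γ ++ y ++ β := by
    rw [← List.append_assoc, List.append_left_inj, List.append_assoc, List.append_assoc,
      List.append_right_inj, ← List.append_assoc] at h
    exact h
  rw [← pw_del h3 hy]
  simp

theorem hitting (g c : ℕ → ℕ) (t m : ℕ) (g0 : g 0 = 0) (hg : ∀ i < t, g (i + 1) ≤ g i + 1)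
    (hc : Monotone c) (hm : c m ≤ g t) :
    ∃ τ : ℕ → ℕ, (∀ i ≤ m, τ i ≤ t ∧ g (τ i) = c i) ∧ ∀ i j, i ≤ j → j ≤ m → τ i ≤ τ j := by
  classical
  have hex : ∀ i : ℕ, ∃ s, c i ≤ g s ∨ s = t := fun i => ⟨t, Or.inr rfl⟩
  have h1 : ∀ i ≤ m, Nat.find (hex i) ≤ t ∧ g (Nat.find (hex i)) = c i := by
    intro i hi
    have hb : Nat.find (hex i) ≤ t := Nat.find_min' (hex i) (Or.inr rfl)
    have h2 : c i ≤ g (Nat.find (hex i)) := by
      rcases Nat.find_spec (hex i) with h2 | h2
      · exact h2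
      · rw [h2]; exact (hc hi).trans hm
    refine ⟨hb, le_antisymm ?_ h2⟩
    rcases h3 : Nat.find (hex i) with _ | s
    · omega
    · have h4 := Nat.find_min (hex i) (show s < Nat.find (hex i) by omega)
      push Not at h4
      have h5 := hg s (by omega)
      omega
  refine ⟨fun i => Nat.find (hex i), h1, fun i j hij hj => ?_⟩
  refine Nat.find_min' (hex i) (Or.inl ?_)
  rw [(h1 j hj).2]
  exact hc hij

/-- acceptance by a two-ended automaton -/
def Acc2 {St : Type} (tr : St → List ℕ → List ℕ → St → Prop) (s₀ : St) (fin : Set St)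
    (w : List ℕ) : Prop :=
  ∃ B ∈ fin, ∃ x y, w = x ++ y ∧ ReflTransGen (Mv tr) (s₀, [], []) (B, x, y)

theorem lin_core {St : Type} [Finite St] {tr : St → List ℕ → List ℕ → St → Prop} {s₀ : St}
    {fin : Set St} (htr : ∀ A x y B, tr A x y B → x.length ≤ 1 ∧ y.length ≤ 1)
    (W₀ Y W₁ Z W₂ : List ℕ) (N J : ℕ)
    (hN : Nat.card St * ((W₂.length + 1) * Z.length) ≤ N)
    (hJ : Nat.card St * (W₀.length + N * Y.length + 1) ≤ J)
    (hW : Acc2 tr s₀ fin (W₀ ++ pw Y N ++ W₁ ++ pw Z J ++ W₂))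
    (H : ∀ N' J', J' < J → ¬ Acc2 tr s₀ fin (W₀ ++ pw Y N' ++ W₁ ++ pw Z J' ++ W₂)) :
    ∃ A : St, (∃ j, ReflTransGen (Mv tr) (A, [], []) (A, pw Y (j + 1), [])) ∧
      ∃ i N', ∀ v, ReflTransGen (Mv tr) (A, [], []) (A, v, []) →
        Acc2 tr s₀ fin (W₀ ++ pw Y i ++ v ++ pw Y N' ++ W₁ ++ pw Z J ++ W₂) := by
  have hcard : 0 < Nat.card St := Nat.card_pos_iff.mpr ⟨⟨s₀⟩, inferInstance⟩
  have hZ : 0 < Z.length := by
    by_contra hZ
    have hZ' : Z = [] := List.length_eq_zero_iff.mp (by omega)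
    have hJ0 : 0 < J := lt_of_lt_of_le (Nat.mul_pos hcard (by omega)) hJ
    refine H N 0 hJ0 ?_
    have : pw Z J = pw Z 0 := by
      apply List.length_eq_zero_iff.mp
      rw [length_pw, hZ']
      rfl
    rwa [this] at hW
  obtain ⟨B, hB, x, y, hxy, hpath⟩ := hW
  obtain ⟨n, f, f0, fn, fs⟩ := exists_path hpath
  set W := W₀ ++ pw Y N ++ W₁ ++ pw Z J ++ W₂ with hWdef
  have hWlen : W.length = W₀.length + N * Y.length + W₁.length + J * Z.length + W₂.length := by
    simp only [hWdef, List.length_append, length_pw]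
  have F1 : ∀ i j, i ≤ j → j ≤ n → ∃ a b, (f j).2.1 = (f i).2.1 ++ a ∧ (f j).2.2 = b ++ (f i).2.2 ∧
      ∀ γ δ, ReflTransGen (Mv tr) ((f i).1, γ, δ) ((f j).1, γ ++ a, b ++ δ) :=
    fun i j hij hj => mv_shift (path_seg fs hij hj)
  have F2 : ∀ i < n, (f (i + 1)).2.1.length ≤ (f i).2.1.length + 1 ∧
      (f (i + 1)).2.2.length ≤ (f i).2.2.length + 1 := by
    intro i hi
    obtain ⟨a, b, h1, h2, h3⟩ := fs i hi
    have := htr _ _ _ _ h1
    rw [h2, h3, List.length_append, List.length_append]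
    omega
  have R : ∀ i ≤ n, ReflTransGen (Mv tr) (s₀, [], []) (f i) := by
    intro i hi
    have := path_seg fs (Nat.zero_le i) hi
    rwa [f0] at this
  have G : ∀ i ≤ n, ∃ mid, W = (f i).2.1 ++ mid ++ (f i).2.2 ∧
      ∀ γ δ, ReflTransGen (Mv tr) (s₀, [], []) ((f i).1, γ, δ) →
        Acc2 tr s₀ fin (γ ++ mid ++ δ) := by
    intro i hi
    obtain ⟨a, b, h1, h2, h3⟩ := F1 i n hi le_rfl
    rw [fn] at h1 h2 h3
    simp only at h1 h2 h3
    refine ⟨a ++ b, by rw [hxy, h1, h2]; simp, fun γ δ h => ?_⟩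
    exact ⟨B, hB, γ ++ a, b ++ δ, by simp, h.trans (h3 γ δ)⟩
  have claimA : ∀ t ≤ n, (f t).2.1.length ≤ W₀.length + N * Y.length →
      (f t).2.2.length < W₂.length + J * Z.length := by
    intro t ht hl
    by_contra hcon
    obtain ⟨τ, hτ, hmono⟩ := hitting (fun i => (f i).2.2.length)
      (fun i => W₂.length + i * Z.length) t J (by rw [f0]; rfl)
      (fun i hi => (F2 i (by omega)).2)
      (fun i j hij => Nat.add_le_add_left (Nat.mul_le_mul_right _ hij) _) (by omega)
    obtain ⟨i, j, hij, hj, hc⟩ := pigeon (fun i => ((f (τ i)).1,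
      (⟨(f (τ i)).2.1.length % (W₀.length + N * Y.length + 1), Nat.mod_lt _ (by omega)⟩ :
        Fin (W₀.length + N * Y.length + 1))))
    rw [Nat.card_prod, Nat.card_eq_fintype_card (α := Fin _), Fintype.card_fin] at hj
    simp only [Prod.mk.injEq, Fin.mk.injEq] at hc
    obtain ⟨hc1, hc2⟩ := hc
    obtain ⟨i1, i2⟩ := hτ i (by omega)
    obtain ⟨j1, j2⟩ := hτ j (by omega)
    obtain ⟨a, b, h1, h2, -⟩ := F1 (τ i) (τ j) (hmono i j hij.le (by omega)) (by omega)
    obtain ⟨a', b', h3, -, -⟩ := F1 (τ j) t j1 ht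
    have l1 := congrArg List.length h1
    have l2 := congrArg List.length h2
    have l3 := congrArg List.length h3
    rw [List.length_append] at l1 l2 l3
    rw [Nat.mod_eq_of_lt (by omega), Nat.mod_eq_of_lt (by omega)] at hc2
    have ha : a = [] := List.length_eq_zero_iff.mp (by omega)
    rw [ha, List.append_nil] at h1
    obtain ⟨mid, h4, h5⟩ := G (τ j) (by omega)
    have h6 := h5 (f (τ i)).2.1 (f (τ i)).2.2 (by rw [← hc1]; exact R _ (by omega))
    obtain ⟨d, rfl⟩ : ∃ d, j = i + (d + 1) := ⟨j - i - 1, by omega⟩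
    obtain ⟨c, hcJ⟩ : ∃ c, J = c + (d + 1) := ⟨J - (d + 1), by omega⟩
    have l4 := congrArg List.length h4
    rw [hWlen, List.length_append, List.length_append] at l4
    have l5 : (i + (d + 1)) * Z.length ≤ J * Z.length := Nat.mul_le_mul_right _ (by omega)
    have l6 : (i + (d + 1)) * Z.length = i * Z.length + (d + 1) * Z.length := add_mul _ _ _
    rw [h2, h1, hWdef, hcJ, ← List.append_assoc] at h4
    have h7 := pw_del' h4 (by omega)
      (by
        rw [← h1]
        simp only [List.length_append, length_pw]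
        omega) (by omega)
    rw [h7] at h6
    exact H N c (by omega) h6
  have hleft : W₀.length + N * Y.length ≤ (f n).2.1.length := by
    by_contra hcon
    have h1 := claimA n le_rfl (by omega)
    rw [fn] at hcon h1
    have h2 := congrArg List.length hxy
    rw [hWlen, List.length_append] at h2
    simp only at hcon h1
    omega
  obtain ⟨τ, hτ, hmono⟩ := hitting (fun i => (f i).2.1.length)
    (fun i => W₀.length + i * Y.length) n N (by rw [f0]; rfl)
    (fun i hi => (F2 i hi).1)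
    (fun i j hij => Nat.add_le_add_left (Nat.mul_le_mul_right _ hij) _) hleft
  have G' : ∀ i ≤ N, (f (τ i)).2.1 = W₀ ++ pw Y i ∧ ∃ mid,
      pw Y (N - i) ++ W₁ ++ pw Z J ++ W₂ = mid ++ (f (τ i)).2.2 ∧
      ∀ γ δ, ReflTransGen (Mv tr) (s₀, [], []) ((f (τ i)).1, γ, δ) →
        Acc2 tr s₀ fin (γ ++ mid ++ δ) := by
    intro i hi
    obtain ⟨mid, h1, h2⟩ := G (τ i) (hτ i hi).1
    have e : W = (W₀ ++ pw Y i) ++ (pw Y (N - i) ++ W₁ ++ pw Z J ++ W₂) := by
      have : pw Y N = pw Y i ++ pw Y (N - i) := by rw [← pw_add]; congr 1; omega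
      rw [hWdef, this]
      simp
    rw [e, List.append_assoc _ mid] at h1
    have h3 := List.append_inj h1 (by
      rw [List.length_append, length_pw]
      exact (hτ i hi).2.symm)
    exact ⟨h3.1.symm, mid, h3.2, h2⟩
  obtain ⟨i, j, hij, hj, hc⟩ := pigeon (fun i => ((f (τ i)).1,
    (⟨min (f (τ i)).2.2.length W₂.length, by omega⟩ : Fin (W₂.length + 1)),
    (⟨((f (τ i)).2.2.length - W₂.length) % Z.length, Nat.mod_lt _ hZ⟩ : Fin Z.length)))
  rw [Nat.card_prod, Nat.card_prod, Nat.card_eq_fintype_card (α := Fin _), Fintype.card_fin,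
    Nat.card_eq_fintype_card (α := Fin _), Fintype.card_fin] at hj
  simp only [Prod.mk.injEq, Fin.mk.injEq] at hc
  obtain ⟨hc1, hc2, hc3⟩ := hc
  obtain ⟨i1, mi, i2, i3⟩ := G' i (by omega)
  obtain ⟨j1, mj, j2, j3⟩ := G' j (by omega)
  obtain ⟨a, b, h1, h2, h3⟩ := F1 (τ i) (τ j) (hmono i j hij.le (by omega)) (hτ j (by omega)).1
  obtain ⟨e, rfl⟩ : ∃ e, j = i + (e + 1) := ⟨j - i - 1, by omega⟩
  rw [i1, j1, pw_add, ← List.append_assoc, List.append_right_inj] at h1
  by_cases hb : b = []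
  · refine ⟨(f (τ i)).1, ⟨e, ?_⟩, i, N - i, fun v hv => ?_⟩
    · have := h3 [] []
      rw [← hc1, hb, ← h1] at this
      simpa using this
    · obtain ⟨x', y', h4, h5, h6⟩ := mv_shift hv
      simp only [List.nil_append, List.append_nil] at h4 h5 h6
      have h7 := i3 _ _ ((R _ (hτ i (by omega)).1).trans (h6 (f (τ i)).2.1 (f (τ i)).2.2))
      rw [← h4, ← h5, List.nil_append, i1, List.append_assoc _ mi, ← i2] at h7
      simpa using h7
  · exfalso
    have l1 : 0 < b.length := List.length_pos_iff.mpr hb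
    have l2 := congrArg List.length h2
    rw [List.length_append] at l2
    have l3 := claimA (τ (i + (e + 1))) (hτ _ (by omega)).1 (by
      rw [j1, List.length_append, length_pw]
      exact Nat.add_le_add_left (Nat.mul_le_mul_right _ (by omega)) _)
    have l4 : W₂.length ≤ (f (τ i)).2.2.length := by omega
    obtain ⟨d, hd⟩ : Z.length ∣ b.length := by
      have := (Nat.modEq_iff_dvd' (by omega)).mp hc3
      have e1 : (f (τ (i + (e + 1)))).2.2.length - W₂.length - ((f (τ i)).2.2.length - W₂.length)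
        = b.length := by omega
      rwa [e1] at this
    rw [mul_comm] at hd
    have l5 : d < J := by
      by_contra hcon
      have : J * Z.length ≤ d * Z.length := Nat.mul_le_mul_right _ (by omega)
      omega
    have l6 : d ≠ 0 := by
      rintro rfl
      omega
    obtain ⟨c, hcJ⟩ : ∃ c, J = c + d := ⟨J - d, by omega⟩
    have h6 := j3 (f (τ i)).2.1 (f (τ i)).2.2 (by rw [← hc1]; exact R _ (hτ i (by omega)).1)
    have l7 := congrArg List.length j2
    simp only [List.length_append, length_pw] at l7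
    rw [h2, ← List.append_assoc, hcJ] at j2
    have h7 := pw_del' j2 hd (by
      simp only [List.length_append, length_pw]
      omega) l4
    rw [List.append_assoc, h7, i1] at h6
    refine H (i + (N - (i + (e + 1)))) c (by omega) ?_
    rw [pw_add]
    simpa using h6

end Pool.Agent.H322Z.GP
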