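import Pool.Agent.H322Z.GP.LinB

set_option autoImplicit false

/-!
# The linear languages `{u v z 0 1^|z| l 1^|u| : l ∉ v}` escape from `G(L)`
-/

namespace Pool.Agent.H322Z.GP

open Relation

/-- nonterminals -/
inductive KN (k : ℕ) : Type
  | S : KN k
  | T (l : Fin k) : KN k
  | U : KN k

/-- rules -/
inductive KR (k : ℕ) : ContextFreeRule ℕ (KN k) → Prop
  | push (a : Fin k) : KR k ⟨KN.S, sf [(a : ℕ) + 2] KN.S [1]⟩
  | choose (l : Fin k) : KR k ⟨KN.S, sf [] (KN.T l) [(l : ℕ) + 2]⟩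
  | skip (l a : Fin k) : a ≠ l → KR k ⟨KN.T l, sf [(a : ℕ) + 2] (KN.T l) []⟩
  | down (l : Fin k) : KR k ⟨KN.T l, sf [] KN.U []⟩
  | pair (a : Fin k) : KR k ⟨KN.U, sf [(a : ℕ) + 2] KN.U [1]⟩
  | stop : KR k ⟨KN.U, [0].map Symbol.terminal⟩

theorem KR_finite (k : ℕ) : {r | KR k r}.Finite := by
  refine ((((((Set.finite_range fun a : Fin k =>
      (⟨KN.S, sf [(a : ℕ) + 2] KN.S [1]⟩ : ContextFreeRule ℕ (KN k))).union
    (Set.finite_range fun l : Fin k => ⟨KN.S, sf [] (KN.T l) [(l : ℕ) + 2]⟩)).union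
    (Set.finite_range fun p : Fin k × Fin k =>
      ⟨KN.T p.1, sf [(p.2 : ℕ) + 2] (KN.T p.1) []⟩)).union
    (Set.finite_range fun l : Fin k => ⟨KN.T l, sf [] KN.U []⟩)).union
    (Set.finite_range fun a : Fin k => ⟨KN.U, sf [(a : ℕ) + 2] KN.U [1]⟩)).insert
    ⟨KN.U, [0].map Symbol.terminal⟩).subset ?_
  intro r hr
  cases hr with
  | push a => exact Or.inr (Or.inl (Or.inl (Or.inl (Or.inl ⟨a, rfl⟩))))
  | choose l => exact Or.inr (Or.inl (Or.inl (Or.inl (Or.inr ⟨l, rfl⟩))))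
  | skip l a _ => exact Or.inr (Or.inl (Or.inl (Or.inr ⟨(l, a), rfl⟩)))
  | down l => exact Or.inr (Or.inl (Or.inr ⟨l, rfl⟩))
  | pair a => exact Or.inr (Or.inr ⟨a, rfl⟩)
  | stop => exact Or.inl rfl

/-- the grammar -/
noncomputable def KG (k : ℕ) : ContextFreeGrammar ℕ := ⟨KN k, KN.S, (KR_finite k).toFinset⟩

theorem mem_KG {k : ℕ} {r : ContextFreeRule ℕ (KN k)} : r ∈ (KG k).rules ↔ KR k r :=
  (KR_finite k).mem_toFinset

theorem KG_linear (k : ℕ) : ∀ r ∈ (KG k).rules, r.output.countP isNT ≤ 1 := by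
  intro r hr
  have h := mem_KG.mp hr
  cases h with
  | stop => exact Nat.zero_le 1
  | _ => exact Nat.le_refl 1

/-- shape of the derived words -/
def GInv (k : ℕ) : KN k → List ℕ → Prop
  | KN.U, w => ∃ z, (∀ a ∈ z, 2 ≤ a) ∧ w = z ++ 0 :: List.replicate z.length 1
  | KN.T l, w => ∃ v z, (∀ a ∈ v, 2 ≤ a) ∧ (l : ℕ) + 2 ∉ v ∧ (∀ a ∈ z, 2 ≤ a) ∧
      w = v ++ z ++ 0 :: List.replicate z.length 1
  | KN.S, w => ∃ u v z l, (∀ a ∈ u, 2 ≤ a) ∧ (∀ a ∈ v, 2 ≤ a) ∧ l + 2 ∉ v ∧ (∀ a ∈ z, 2 ≤ a) ∧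
      w = u ++ v ++ z ++ 0 :: (List.replicate z.length 1 ++ (l + 2) :: List.replicate u.length 1)

theorem two_le_cons {b : ℕ} {u : List ℕ} (h : ∀ a ∈ u, 2 ≤ a) : ∀ a ∈ (b + 2) :: u, 2 ≤ a := by
  intro c hc
  rcases List.mem_cons.mp hc with rfl | hc
  · omega
  · exact h c hc

theorem ginv (k : ℕ) {A : (KG k).NT} {w : List ℕ} (h : LD (KG k) A w) : GInv k A w := by
  induction h with
  | term r x hr ho =>
    have h := mem_KG.mp hr
    cases h with
    | stop =>
      obtain rfl := map_terminal_inj ho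
      exact ⟨[], by simp, rfl⟩
    | _ => exact absurd ho sf_ne
  | lin r x B y w hr ho _ ih =>
    have h := mem_KG.mp hr
    cases h with
    | stop => exact absurd ho.symm sf_ne
    | push a =>
      obtain ⟨rfl, rfl, rfl⟩ := sf_inj ho
      obtain ⟨u, v, z, l, h1, h2, h3, h4, rfl⟩ := ih
      exact ⟨((a : ℕ) + 2) :: u, v, z, l, two_le_cons h1, h2, h3, h4, by
        simp [List.replicate_succ']⟩
    | choose l =>
      obtain ⟨rfl, rfl, rfl⟩ := sf_inj ho
      obtain ⟨v, z, h2, h3, h4, rfl⟩ := ih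
      exact ⟨[], v, z, l, by simp, h2, h3, h4, by simp⟩
    | skip l a hal =>
      obtain ⟨rfl, rfl, rfl⟩ := sf_inj ho
      obtain ⟨v, z, h2, h3, h4, rfl⟩ := ih
      refine ⟨((a : ℕ) + 2) :: v, z, two_le_cons h2, fun hc => ?_, h4, by simp⟩
      rcases List.mem_cons.mp hc with hc | hc
      · exact hal (Fin.ext (by omega))
      · exact h3 hc
    | down l =>
      obtain ⟨rfl, rfl, rfl⟩ := sf_inj ho
      obtain ⟨z, h4, rfl⟩ := ih
      exact ⟨[], z, by simp, by simp, h4, by simp⟩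
    | pair a =>
      obtain ⟨rfl, rfl, rfl⟩ := sf_inj ho
      obtain ⟨z, h4, rfl⟩ := ih
      exact ⟨((a : ℕ) + 2) :: z, two_le_cons h4, by simp [List.replicate_succ']⟩

theorem g_U (k : ℕ) (z : List ℕ) (hz : ∀ a ∈ z, 2 ≤ a ∧ a < k + 2) :
    LD (KG k) KN.U (z ++ 0 :: List.replicate z.length 1) := by
  induction z with
  | nil => exact LD.term (g := KG k) ⟨KN.U, [0].map Symbol.terminal⟩ [0] (mem_KG.mpr KR.stop) rfl
  | cons a z ih =>
    have h1 := hz a (by simp)
    obtain ⟨b, rfl⟩ : ∃ b, a = b + 2 := ⟨a - 2, by omega⟩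
    have := LD.lin (g := KG k) _ _ _ _ _ (mem_KG.mpr (KR.pair ⟨b, by omega⟩)) rfl
      (ih fun c hc => hz c (by simp [hc]))
    simpa [List.replicate_succ'] using this

theorem g_T (k : ℕ) (l : Fin k) (w : List ℕ) (hw : LD (KG k) KN.U w) (v : List ℕ)
    (hv : ∀ a ∈ v, 2 ≤ a ∧ a < k + 2) (hl : (l : ℕ) + 2 ∉ v) : LD (KG k) (KN.T l) (v ++ w) := by
  induction v with
  | nil =>
    have := LD.lin (g := KG k) _ _ _ _ _ (mem_KG.mpr (KR.down l)) rfl hw
    simpa using this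
  | cons a v ih =>
    have h1 := hv a (by simp)
    obtain ⟨b, rfl⟩ : ∃ b, a = b + 2 := ⟨a - 2, by omega⟩
    have := LD.lin (g := KG k) _ _ _ _ _ (mem_KG.mpr (KR.skip l ⟨b, by omega⟩ (by
      intro hb
      apply hl
      rw [← hb]
      simp))) rfl (ih (fun c hc => hv c (by simp [hc])) (fun hc => hl (by simp [hc])))
    simpa using this

theorem g_S (k : ℕ) (l : Fin k) (w : List ℕ) (hw : LD (KG k) (KN.T l) w) (u : List ℕ)
    (hu : ∀ a ∈ u, 2 ≤ a ∧ a < k + 2) :
    LD (KG k) KN.S (u ++ w ++ ((l : ℕ) + 2) :: List.replicate u.length 1) := by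
  induction u with
  | nil =>
    have := LD.lin (g := KG k) _ _ _ _ _ (mem_KG.mpr (KR.choose l)) rfl hw
    simpa using this
  | cons a u ih =>
    have h1 := hu a (by simp)
    obtain ⟨b, rfl⟩ : ∃ b, a = b + 2 := ⟨a - 2, by omega⟩
    have := LD.lin (g := KG k) _ _ _ _ _ (mem_KG.mpr (KR.push ⟨b, by omega⟩)) rfl
      (ih fun c hc => hu c (by simp [hc]))
    simpa [List.replicate_succ'] using this

theorem g_sound {k l m n : ℕ} {X X' : List ℕ} (hX : ∀ a ∈ X, 2 ≤ a) (hX' : ∀ a ∈ X', 2 ≤ a)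
    (hn : n ≤ X.length) (hm : m ≤ X'.length)
    (h : X ++ (l + 2) :: X' ++ 0 :: (List.replicate m 1 ++ (l + 2) :: List.replicate n 1)
      ∈ (KG k).language) : False := by
  obtain ⟨u, v, z, l', h1, h2, h3, h4, h5⟩ := ginv k ((mem_iff_LD (KG_linear k) _).mp h)
  obtain ⟨a1, -, a3⟩ := first_occ (fun c => c = 0) _ _ h5
    (by
      intro c hc
      rcases List.mem_append.mp hc with hc | hc
      · have := hX c hc; omega
      · have := two_le_cons hX' c hc; omega) rfl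
    (by
      intro c hc
      rcases List.mem_append.mp hc with hc | hc
      · rcases List.mem_append.mp hc with hc | hc
        · have := h1 c hc; omega
        · have := h2 c hc; omega
      · have := h4 c hc; omega) rfl
  obtain ⟨b1, b2, b3⟩ := first_occ (fun c => c ≠ 1) _ _ a3
    (fun c hc => by simp [List.eq_of_mem_replicate hc]) (by omega)
    (fun c hc => by simp [List.eq_of_mem_replicate hc]) (by omega)
  have e1 : m = z.length := by simpa using congrArg List.length b1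
  have e2 : n = u.length := by simpa using congrArg List.length b3
  apply h3
  rw [← b2]
  obtain ⟨γ, rfl⟩ : u <+: X := List.prefix_of_prefix_length_le (l₃ := u ++ v ++ z)
    ⟨v ++ z, by simp⟩ ⟨_, a1⟩ (by omega)
  obtain ⟨β, rfl⟩ : z <:+ X' := List.suffix_of_suffix_length_le (l₃ := u ++ v ++ z)
    ⟨u ++ v, rfl⟩ ⟨u ++ γ ++ [l + 2], by rw [← a1]; simp⟩ (by omega)
  rw [← List.cons_append, ← List.append_assoc, List.append_left_inj, List.append_assoc,
    List.append_right_inj] at a1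
  rw [← a1]
  simp

theorem lin_good {Q St : Type} [Finite Q] [Finite St] {tr : St → List ℕ → List ℕ → St → Prop}
    {s₀ : St} {fin : Set St} (htr : ∀ A x y B, tr A x y B → x.length ≤ 1 ∧ y.length ≤ 1)
    (T : Tr Q) (q₀ : Q) (acc : Set Q) (k : ℕ)
    (hK : ∀ u, u ∈ (KG k).language ↔ T.run q₀ u ∈ acc ∧ Acc2 tr s₀ fin (T.out q₀ u))
    (P p : List ℕ) (s : ℕ) (hs : s < k) (hP2 : ∀ a ∈ P, 2 ≤ a ∧ a < k + 2)
    (hp2 : ∀ a ∈ p, 2 ≤ a ∧ a < s + 2) (h2 : T.run (T.run q₀ P) p = T.run q₀ P) :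
    ∃ A : St, (∃ j, ReflTransGen (Mv tr) (A, [], []) (A, T.out (T.run q₀ P) (pw p (j + 1)), [])) ∧
      ∀ w : List ℕ, (∀ a ∈ w, 2 ≤ a) → s + 2 ∈ w → T.run (T.run q₀ P) w = T.run q₀ P →
        ¬ ReflTransGen (Mv tr) (A, [], []) (A, T.out (T.run q₀ P) w, []) := by
  set q := T.run q₀ P with hq
  obtain ⟨π, hπ⟩ := T.idem [1]
  set β := pw [1] (π + 1) with hβ
  set e := (s + 2) :: List.replicate P.length 1 with he
  obtain ⟨E, hE⟩ := out_bound T e
  obtain ⟨Zb, hZb⟩ := out_bound T β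
  set N := Nat.card St * ((E + 1) * Zb) with hN
  set J := Nat.card St * ((T.out q₀ P).length + N * (T.out q p).length + 1) with hJ
  set m := List.replicate ((J + 1) * (π + 1)) (s + 2) ++ [0] ++ β with hm
  set r := T.run q m with hr
  have hrβ : T.run r β = r := by rw [hr, hm, T.run_append, hπ]
  have key : ∀ (w : List ℕ) (J' : ℕ), T.run q w = q →
      T.run q₀ (P ++ w ++ m ++ pw β J' ++ e) = T.run r e ∧
      T.out q₀ (P ++ w ++ m ++ pw β J' ++ e) =
        T.out q₀ P ++ T.out q w ++ T.out q m ++ pw (T.out r β) J' ++ T.out r e := by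
    intro w J' hw
    simp only [T.run_append, T.out_append, ← hq, hw, ← hr, T.run_pw_fix hrβ, T.out_pw_fix hrβ,
      and_self]
  have shape : ∀ (w : List ℕ) (J' : ℕ), P ++ w ++ m ++ pw β J' ++ e =
      P ++ w ++ List.replicate ((J + 1) * (π + 1)) (s + 2) ++
        0 :: (List.replicate ((J' + 1) * (π + 1)) 1 ++ (s + 2) :: List.replicate P.length 1) := by
    intro w J'
    rw [← pw_single 1, ← pw_mul, ← hβ, hm, he, pw]
    simp
  have hmem : P ++ pw p N ++ m ++ pw β J ++ e ∈ (KG k).language := by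
    rw [shape, mem_iff_LD (KG_linear k)]
    have h3 := g_S k ⟨s, hs⟩ _ (g_T k ⟨s, hs⟩ _
      (g_U k (List.replicate ((J + 1) * (π + 1)) (s + 2))
        (fun a ha => by rw [List.eq_of_mem_replicate ha]; omega)) (pw p N)
      (fun a ha => by have := hp2 a (mem_pw ha); omega)
      (fun ha => by have := hp2 _ (mem_pw ha); simp at this)) P hP2
    change LD (KG k) KN.S _
    simpa using h3
  have hacc : T.run r e ∈ acc := by
    rw [← (key (pw p N) J (T.run_pw_fix h2 N)).1]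
    exact ((hK _).mp hmem).1
  have hpos : 0 < (J + 1) * (π + 1) := by positivity
  obtain ⟨A, ⟨j, hj⟩, i, N', hA⟩ := lin_core htr (T.out q₀ P) (T.out q p) (T.out q m) (T.out r β)
    (T.out r e) N J
    (Nat.mul_le_mul_left _ (Nat.mul_le_mul (Nat.succ_le_succ (hE r)) (hZb r))) le_rfl
    (by
      have := ((hK _).mp hmem).2
      rwa [(key (pw p N) J (T.run_pw_fix h2 N)).2, T.out_pw_fix h2] at this)
    (fun N' J' hJ' h => by
      obtain ⟨k1, k2⟩ := key (pw p N') J' (T.run_pw_fix h2 N')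
      rw [← T.out_pw_fix h2, ← k2] at h
      have h3 := (hK _).mpr ⟨by rw [k1]; exact hacc, h⟩
      rw [shape] at h3
      obtain ⟨c, hc⟩ : ∃ c, (J + 1) * (π + 1) = c + 1 := ⟨_, (Nat.succ_pred_eq_of_pos hpos).symm⟩
      rw [hc, List.replicate_succ] at h3
      refine g_sound (fun a ha => ?_) (fun a ha => ?_) (by simp) ?_ h3
      · rcases List.mem_append.mp ha with ha | ha
        · exact (hP2 a ha).1
        · exact (hp2 a (mem_pw ha)).1
      · rw [List.eq_of_mem_replicate ha]; omega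
      · have : (J' + 1) * (π + 1) < (J + 1) * (π + 1) :=
          Nat.mul_lt_mul_of_pos_right (by omega) (by omega)
        rw [List.length_replicate]
        omega)
  refine ⟨A, ⟨j, by rw [T.out_pw_fix h2]; exact hj⟩, fun w hw hsw hrun hloop => ?_⟩
  have h3 := hA _ hloop
  obtain ⟨k1, k2⟩ := key (pw p i ++ w ++ pw p N') J (by
    rw [T.run_append, T.run_append, T.run_pw_fix h2, hrun, T.run_pw_fix h2])
  rw [T.out_append q (pw p i ++ w), T.out_append q (pw p i), T.run_append q (pw p i),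
    T.run_pw_fix h2, hrun, T.out_pw_fix h2,
    T.out_pw_fix h2, ← List.append_assoc (T.out q₀ P), ← List.append_assoc (T.out q₀ P)] at k2
  rw [← k2] at h3
  have h4 := (hK _).mpr ⟨by rw [k1]; exact hacc, h3⟩
  rw [shape] at h4
  obtain ⟨w₁, w₂, rfl⟩ := List.append_of_mem hsw
  refine g_sound (k := k) (l := s) (m := (J + 1) * (π + 1)) (n := P.length)
    (X := P ++ pw p i ++ w₁) (X' := w₂ ++ pw p N' ++ List.replicate ((J + 1) * (π + 1)) (s + 2))
    (fun a ha => ?_) (fun a ha => ?_) (by simp) (by simp; omega) (by simpa using h4)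
  · rcases List.mem_append.mp ha with ha | ha
    · rcases List.mem_append.mp ha with ha | ha
      · exact (hP2 a ha).1
      · exact (hp2 a (mem_pw ha)).1
    · exact hw a (by simp [ha])
  · rcases List.mem_append.mp ha with ha | ha
    · rcases List.mem_append.mp ha with ha | ha
      · exact hw a (by simp [ha])
      · exact (hp2 a (mem_pw ha)).1
    · rw [List.eq_of_mem_replicate ha]; omega

theorem lin_main (L : Language ℕ) (hL : IsLinear L) : ∃ K, IsLinear K ∧ ¬ InG L K := by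
  obtain ⟨St, hSt, tr, s₀, fin, htr, hL⟩ := linear_aut hL
  refine ⟨(KG (Nat.card St + 1)).language, ⟨_, KG_linear _, rfl⟩, fun h => ?_⟩
  obtain ⟨Q, hQ, T, q₀, acc, hK⟩ := single_tr h
  obtain ⟨p, hp1, hp2, hp3⟩ := nested T
  set k := Nat.card St + 1 with hk
  have h1 : ∀ s, ∃ A : St, s < k →
      (∃ j, ReflTransGen (Mv tr) (A, [], [])
        (A, T.out (T.run q₀ (p k)) (pw (p s) (j + 1)), [])) ∧
      ∀ w : List ℕ, (∀ a ∈ w, 2 ≤ a) → s + 2 ∈ w →
        T.run (T.run q₀ (p k)) w = T.run q₀ (p k) →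
        ¬ ReflTransGen (Mv tr) (A, [], []) (A, T.out (T.run q₀ (p k)) w, []) := by
    intro s
    by_cases hs : s < k
    · obtain ⟨A, hA⟩ := lin_good (s₀ := s₀) (fin := fin) htr T q₀ acc k
        (fun u => by rw [hK, hL]; rfl) (p k) (p s) s hs (hp1 k) (hp1 s) (hp3 s k hs.le q₀)
      exact ⟨A, fun _ => hA⟩
    · exact ⟨s₀, fun h => absurd h hs⟩
  choose A hA using h1
  obtain ⟨s, t, hst, ht, hc⟩ := pigeon A
  obtain ⟨j, h2⟩ := (hA t (by omega)).1
  rw [← hc] at h2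
  refine (hA s (by omega)).2 _ (fun a ha => (hp1 t a (mem_pw ha)).1) ?_
    (T.run_pw_fix (hp3 t k (by omega) q₀) _) h2
  obtain ⟨u, hu⟩ := hp2 s t hst
  rw [pw, hu]
  simp

end Pool.Agent.H322Z.GP
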