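import Pool.Agent.H322Z.GP.Common

set_option autoImplicit false

/-!
# Pumping tools for one-counter automata
-/

namespace Pool.Agent.H322Z.GP

open Relation

/-- an abstract graded family of counter relations -/
structure Graded {C : Type} (P : ℕ → C × ℕ → C × ℕ → Prop) : Prop where
  refl : ∀ x, P 0 x x
  add : ∀ {m n x y z}, P m x y → P n y z → P (m + n) x z
  split : ∀ {n x z}, P (n + 1) x z → ∃ y, P n x y ∧ P 1 y z
  shift : ∀ {n c h c' h'} (d : ℕ), P n (c, h) (c', h') → P n (c, h + d) (c', h' + d)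

variable {C : Type} {P : ℕ → C × ℕ → C × ℕ → Prop}

theorem Graded.path (G : Graded P) {n : ℕ} {x z : C × ℕ} (h : P (n + 1) x z) :
    ∃ f : ℕ → C × ℕ, f 0 = x ∧ f (n + 1) = z ∧ ∀ i < n + 1, P 1 (f i) (f (i + 1)) := by
  induction n generalizing z with
  | zero =>
    refine ⟨fun i => if i = 0 then x else z, rfl, rfl, fun i hi => ?_⟩
    have : i = 0 := by omega
    subst this
    exact h
  | succ n ih =>
    obtain ⟨y, h1, h2⟩ := G.split h
    obtain ⟨f, f0, fn, fs⟩ := ih h1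
    refine ⟨fun i => if i ≤ n + 1 then f i else z, by simpa using f0, by simp, fun i hi => ?_⟩
    by_cases hi' : i < n + 1
    · simp only [if_pos hi'.le, if_pos (Nat.succ_le_of_lt hi')]
      exact fs i hi'
    · have : i = n + 1 := by omega
      subst this
      simpa [fn] using h2

theorem Graded.seg (G : Graded P) {n : ℕ} {f : ℕ → C × ℕ} (hs : ∀ i < n, P 1 (f i) (f (i + 1)))
    (i d : ℕ) (h : i + d ≤ n) : P d (f i) (f (i + d)) := by
  induction d with
  | zero => exact G.refl _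
  | succ d ih => exact G.add (ih (by omega)) (hs (i + d) (by omega))

theorem Graded.seg' (G : Graded P) {n : ℕ} {f : ℕ → C × ℕ} (hs : ∀ i < n, P 1 (f i) (f (i + 1)))
    {i j : ℕ} (hij : i ≤ j) (h : j ≤ n) : P (j - i) (f i) (f j) := by
  have := G.seg hs i (j - i) (by omega)
  rwa [Nat.add_sub_cancel' hij] at this

theorem Graded.up (G : Graded P) {j m e : ℕ} {B : C} (h : P j (B, m) (B, m + e)) (x : ℕ) :
    P (x * j) (B, m) (B, m + x * e) := by
  induction x with
  | zero => simpa using G.refl (B, m)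
  | succ x ih =>
    have h1 := G.shift (x * e) h
    have e1 : m + e + x * e = m + (x + 1) * e := by ring
    rw [e1] at h1
    rw [Nat.succ_mul]
    exact G.add ih h1

theorem Graded.down (G : Graded P) {j m e : ℕ} {B : C} (h : P j (B, m + e) (B, m)) (x : ℕ) :
    P (x * j) (B, m + x * e) (B, m) := by
  induction x with
  | zero => simpa using G.refl (B, m)
  | succ x ih =>
    have h1 := G.shift (x * e) h
    have e1 : m + e + x * e = m + (x + 1) * e := by ring
    rw [e1] at h1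
    rw [Nat.succ_mul, add_comm (x * j)]
    exact G.add h1 ih

theorem Graded.zone [Finite C] (G : Graded P) (Bd : ℕ)
    (big : ∀ {c h c' h'}, P 1 (c, h) (c', h') → h' + Bd ≤ h →
      ∃ e, 0 < e ∧ ∀ i, P 1 (c, h + i * e) (c', h')) :
    ∃ n₀, ∀ n, n₀ ≤ n → ∀ (c : C) (h : ℕ) (c' : C) (h' : ℕ), h' ≤ 1 → P n (c, h) (c', h') →
      (∃ j e, 0 < j ∧ 0 < e ∧ ∀ z, P (n + z * j) (c, h + z * e) (c', h')) ∨
        ∃ n', n < n' ∧ P n' (c, h) (c', h') := by
  set D := Nat.card C with hD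
  set H := D * (Bd + 1) + 1 with hH
  refine ⟨D + D * H + 1, fun n hn c h c' h' hh' hP => ?_⟩
  obtain ⟨n, rfl⟩ : ∃ n', n = n' + 1 := ⟨n - 1, by omega⟩
  obtain ⟨f, f0, fn, fs⟩ := G.path hP
  by_contra hcon
  push Not at hcon
  obtain ⟨hneg, hbad⟩ := hcon
  have hpos : ∀ i j, i < j → j ≤ n + 1 → (f i).1 = (f j).1 → (f i).2 < (f j).2 := by
    intro i j hij hj hc
    have a1 := G.seg' fs (Nat.zero_le i) (by omega)
    have a2 := G.seg' fs hij.le hj
    have a3 := G.seg' fs hj le_rfl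
    rw [f0] at a1
    rw [fn] at a3
    by_contra hle
    push Not at hle
    obtain ⟨e, he⟩ : ∃ e, (f i).2 = (f j).2 + e := ⟨(f i).2 - (f j).2, by omega⟩
    have e1 : f i = ((f j).1, (f j).2 + e) := Prod.ext hc he
    have e2 : f j = ((f j).1, (f j).2) := rfl
    rw [e1] at a1
    rw [e1, e2] at a2
    have key : ∀ z, P (n + 1 + z * (j - i)) (c, h + z * e) (c', h') := by
      intro z
      have b1 := G.shift (z * e) a1
      have b2 := G.down a2 (z + 1)
      have e3 : (f j).2 + e + z * e = (f j).2 + (z + 1) * e := by ring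
      rw [e3] at b1
      have b3 := G.add (G.add b1 b2) a3
      have e4 : i - 0 + (z + 1) * (j - i) + (n + 1 - j) = n + 1 + z * (j - i) := by
        rw [Nat.succ_mul]; omega
      rwa [e4] at b3
    rcases Nat.eq_zero_or_pos e with rfl | he0
    · have := key 1
      rw [mul_zero, add_zero] at this
      exact hbad _ (by omega) this
    · obtain ⟨z, hz⟩ := hneg (j - i) e (by omega) he0
      exact hz (key z)
  obtain ⟨i, j, hij, hj, hc⟩ := pigeon (fun s => (f s).1)
  have hij' := hpos i j hij (by omega) hc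
  have ht : ∃ t, D ≤ t ∧ t ≤ n + 1 ∧ H ≤ (f t).2 := by
    by_contra hno
    push Not at hno
    have hH0 : 0 < H := by omega
    obtain ⟨a, b, hab, hb, hc'⟩ := pigeon
      (fun s => ((f (D + s)).1, (⟨(f (D + s)).2 % H, Nat.mod_lt _ hH0⟩ : Fin H)))
    rw [Nat.card_prod, Nat.card_eq_fintype_card (α := Fin H), Fintype.card_fin, ← hD] at hb
    simp only [Prod.mk.injEq, Fin.mk.injEq] at hc'
    have h1 := hpos (D + a) (D + b) (by omega) (by omega) hc'.1
    have h2 := hc'.2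
    rw [Nat.mod_eq_of_lt (hno _ (by omega) (by omega)),
      Nat.mod_eq_of_lt (hno _ (by omega) (by omega))] at h2
    omega
  obtain ⟨t, ht1, ht2, ht3⟩ := ht
  by_cases hb : ∃ s, t ≤ s ∧ s < n + 1 ∧ (f (s + 1)).2 + Bd ≤ (f s).2
  · obtain ⟨s, hs1, hs2, hs3⟩ := hb
    obtain ⟨e, he, hbig⟩ := big (c := (f s).1) (h := (f s).2) (c' := (f (s + 1)).1)
      (h' := (f (s + 1)).2) (fs s hs2) hs3
    obtain ⟨e₁, he₁⟩ : ∃ e₁, (f j).2 = (f i).2 + e₁ := ⟨(f j).2 - (f i).2, by omega⟩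
    have a1 := G.seg' fs (Nat.zero_le i) (by omega)
    have a2 := G.seg' fs hij.le (by omega)
    have a3 := G.seg' fs (show i ≤ s by omega) (by omega)
    have a4 := G.seg' fs (show s + 1 ≤ n + 1 by omega) le_rfl
    rw [f0] at a1
    rw [fn] at a4
    have e1 : f j = ((f i).1, (f i).2 + e₁) := Prod.ext hc.symm he₁
    rw [e1] at a2
    have b2 := G.up (B := (f i).1) (m := (f i).2) a2 e
    have b3 := G.shift (c := (f i).1) (h := (f i).2) (c' := (f s).1) (h' := (f s).2) (e * e₁) a3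
    have b4 := hbig e₁
    rw [mul_comm e₁ e] at b4
    have b5 := G.add (G.add (G.add (G.add a1 b2) b3) b4) a4
    refine hbad _ ?_ b5
    have : 0 < e * (j - i) := Nat.mul_pos he (by omega)
    omega
  · push Not at hb
    obtain ⟨s, s', h1, h2, h3, h4, h5⟩ := up_cycle (fun s => (f s).1) (fun s => -((f s).2 : ℤ))
      (Bd + 1) (by omega) t (n + 1) ht2
      (fun s a b => by have := hb s a b; push_cast; omega)
      (by
        rw [fn, ← hD]
        have : (H : ℤ) ≤ (f t).2 := by exact_mod_cast ht3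
        have h6 : (h' : ℤ) ≤ 1 := by exact_mod_cast hh'
        rw [hH] at this
        push_cast at this ⊢
        linarith)
    have := hpos s s' h2 h3 h4
    omega

theorem Graded.rev (G : Graded P) (hs : ∀ {n x z}, P (n + 1) x z → ∃ y, P 1 x y ∧ P n y z) :
    Graded (fun n x y => P n y x) where
  refl := G.refl
  add := fun {m n _ _ _} h1 h2 => by rw [add_comm]; exact G.add h2 h1
  split := fun h => by
    obtain ⟨y, h1, h2⟩ := hs h
    exact ⟨y, h2, h1⟩
  shift := fun d h => G.shift d h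

variable {M : OnePDA}

theorem step_shift {x y : M.Q × ℕ × List ℕ} (h : M.Step x y) (d : ℕ) (z : List ℕ) :
    M.Step (x.1, x.2.1 + d, x.2.2 ++ z) (y.1, y.2.1 + d, y.2.2 ++ z) := by
  cases h with
  | @eps p p' k h w ht =>
    have := OnePDA.Step.eps (h + d) (w ++ z) ht
    simpa only [add_right_comm h d] using this
  | @read p p' a k h w ht =>
    have := OnePDA.Step.read (h + d) (w ++ z) ht
    simpa only [add_right_comm h d, List.cons_append] using this

theorem star_shift {x y : M.Q × ℕ × List ℕ} (h : ReflTransGen M.Step x y) (d : ℕ) (z : List ℕ) :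
    ReflTransGen M.Step (x.1, x.2.1 + d, x.2.2 ++ z) (y.1, y.2.1 + d, y.2.2 ++ z) := by
  induction h with
  | refl => exact ReflTransGen.refl
  | tail _ h2 ih => exact ih.tail (step_shift h2 d z)

theorem star_split {x : M.Q × ℕ × List ℕ} {B : M.Q} {h' : ℕ}
    (h : ReflTransGen M.Step x (B, h', [])) : ∀ y₁ y₂, x.2.2 = y₁ ++ y₂ →
    ∃ A m, ReflTransGen M.Step (x.1, x.2.1, y₁) (A, m, []) ∧
      ReflTransGen M.Step (A, m, y₂) (B, h', []) := by
  induction h using ReflTransGen.head_induction_on with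
  | refl =>
    intro y₁ y₂ hy
    obtain ⟨rfl, rfl⟩ := List.append_eq_nil_iff.mp hy.symm
    exact ⟨B, h', ReflTransGen.refl, ReflTransGen.refl⟩
  | @head x y hxy hy ih =>
    intro y₁ y₂ he
    cases y₁ with
    | nil =>
      refine ⟨x.1, x.2.1, ReflTransGen.refl, ?_⟩
      rw [List.nil_append] at he
      rw [← he]
      exact hy.head hxy
    | cons a y₁ =>
      cases hxy with
      | @eps p p' k h w ht =>
        obtain ⟨A, m, h1, h2⟩ := ih (a :: y₁) y₂ he
        exact ⟨A, m, h1.head (OnePDA.Step.eps h _ ht), h2⟩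
      | @read p p' a' k h w ht =>
        simp only [List.cons_append, List.cons.injEq] at he
        obtain ⟨rfl, he⟩ := he
        obtain ⟨A, m, h1, h2⟩ := ih y₁ y₂ he
        exact ⟨A, m, h1.head (OnePDA.Step.read h _ ht), h2⟩

theorem star_suffix {x y : M.Q × ℕ × List ℕ} (h : ReflTransGen M.Step x y) : y.2.2 <:+ x.2.2 := by
  induction h with
  | refl => exact List.suffix_refl _
  | tail _ h2 ih =>
    refine List.IsSuffix.trans ?_ ih
    cases h2 with
    | eps => exact List.suffix_refl _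
    | read => exact List.suffix_cons _ _

theorem step_bound (M : OnePDA) : ∃ K : ℕ, 1 ≤ K ∧ ∀ x y, M.Step x y →
    y.2.1 ≤ x.2.1 + K ∧ x.2.1 ≤ y.2.1 + K := by
  obtain ⟨K, hK⟩ := (M.fin_trans.image fun t => t.2.2.2).bddAbove
  refine ⟨K + 1, by omega, fun x y h => ?_⟩
  cases h with
  | @eps p p' k h w ht =>
    have : k ≤ K := hK ⟨_, ht, rfl⟩
    simp only
    omega
  | @read p p' a k h w ht =>
    have : k ≤ K := hK ⟨_, ht, rfl⟩
    simp only
    omega

theorem big_cycle (M : OnePDA) (L : ℕ) (σ : ℤ) (hσ : σ = 1 ∨ σ = -1) : ∃ Bd : ℕ, ∀ x y, x.2.2.length ≤ L →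
    ReflTransGen M.Step x y → σ * x.2.1 + Bd ≤ σ * y.2.1 →
    ∃ (A : M.Q) (m m' : ℕ) (w : List ℕ), σ * m < σ * m' ∧ ReflTransGen M.Step x (A, m, w) ∧
      ReflTransGen M.Step (A, m, w) (A, m', w) ∧ ReflTransGen M.Step (A, m', w) y := by
  have := M.fin
  obtain ⟨K, hK1, hK⟩ := step_bound M
  refine ⟨Nat.card (M.Q × Fin (L + 1)) * K, fun x y hx h hb => ?_⟩
  obtain ⟨n, f, f0, fn, fs⟩ := exists_path h
  obtain ⟨s, s', h1, h2, h3, h4, h5⟩ := up_cycle
    (fun s => ((f s).1, (⟨(f s).2.2.length % (L + 1), Nat.mod_lt _ (by omega)⟩ : Fin (L + 1))))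
    (fun s => σ * (f s).2.1) K hK1 0 n (Nat.zero_le n)
    (fun s _ b => by
      have := hK _ _ (fs s b)
      rcases hσ with rfl | rfl <;> omega)
    (by rw [f0, fn]; exact_mod_cast hb)
  have a1 := path_seg fs (Nat.zero_le s) (by omega)
  have a2 := path_seg fs h2.le h3
  have a3 := path_seg fs h3 le_rfl
  rw [f0] at a1
  rw [fn] at a3
  simp only [Prod.mk.injEq, Fin.mk.injEq] at h4
  have l1 := (star_suffix a1).length_le
  have l2 := (star_suffix a2).length_le
  have h6 := h4.2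
  rw [Nat.mod_eq_of_lt (by omega), Nat.mod_eq_of_lt (by omega)] at h6
  have h7 : (f s').2.2 = (f s).2.2 := (star_suffix a2).eq_of_length h6.symm
  have e1 : f s' = ((f s).1, (f s').2.1, (f s).2.2) := Prod.ext h4.1.symm (Prod.ext rfl h7)
  refine ⟨(f s).1, (f s).2.1, (f s').2.1, (f s).2.2, h5, a1, ?_, ?_⟩
  · rw [← e1]; exact a2
  · rw [← e1]; exact a3

theorem star_shift' {A B : M.Q} {h h' : ℕ} {w w' : List ℕ}
    (H : ReflTransGen M.Step (A, h, w) (B, h', w')) (d : ℕ) :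
    ReflTransGen M.Step (A, h + d, w) (B, h' + d, w') := by
  simpa using star_shift H d []

theorem big_down (M : OnePDA) (L : ℕ) : ∃ Bd : ℕ, ∀ (A B : M.Q) (h h' : ℕ) (w : List ℕ),
    w.length ≤ L → ReflTransGen M.Step (A, h, w) (B, h', []) → h' + Bd ≤ h →
    ∃ e, 0 < e ∧ ∀ i, ReflTransGen M.Step (A, h + i * e, w) (B, h', []) := by
  obtain ⟨Bd, hBd⟩ := big_cycle M L (-1) (Or.inr rfl)
  refine ⟨Bd, fun A B h h' w hw H hb => ?_⟩
  obtain ⟨C', m, m', v, h1, h2, h3, h4⟩ := hBd _ _ hw H (by simp only; omega)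
  obtain ⟨e, rfl⟩ : ∃ e, m = m' + e := ⟨m - m', by omega⟩
  refine ⟨e, by omega, fun i => ?_⟩
  refine (star_shift' h2 (i * e)).trans (ReflTransGen.trans ?_ h4)
  induction i with
  | zero => simpa using h3
  | succ i ih =>
    have h5 := star_shift' h3 ((i + 1) * e)
    have e1 : m' + (i + 1) * e = m' + e + i * e := by ring
    rw [e1] at h5
    exact h5.trans ih

theorem big_up (M : OnePDA) (L : ℕ) : ∃ Bd : ℕ, ∀ (A B : M.Q) (h h' : ℕ) (w : List ℕ),
    w.length ≤ L → ReflTransGen M.Step (A, h, w) (B, h', []) → h + Bd ≤ h' →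
    ∃ e, 0 < e ∧ ∀ i, ReflTransGen M.Step (A, h, w) (B, h' + i * e, []) := by
  obtain ⟨Bd, hBd⟩ := big_cycle M L 1 (Or.inl rfl)
  refine ⟨Bd, fun A B h h' w hw H hb => ?_⟩
  obtain ⟨C', m, m', v, h1, h2, h3, h4⟩ := hBd _ _ hw H (by simp only; omega)
  obtain ⟨e, rfl⟩ : ∃ e, m' = m + e := ⟨m' - m, by omega⟩
  refine ⟨e, by omega, fun i => ?_⟩
  refine h2.trans (ReflTransGen.trans ?_ (star_shift' h4 (i * e)))
  induction i with
  | zero => simpa using h3
  | succ i ih =>
    have h5 := star_shift' h3 ((i + 1) * e)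
    have e1 : m + (i + 1) * e = m + e + i * e := by ring
    rw [e1] at h5
    exact ih.trans h5

variable {Q : Type}

/-- the automaton reads the image of the word `y` -/
def TT (M : OnePDA) (T : Tr Q) (y : List ℕ) (x x' : (M.Q × Q) × ℕ) : Prop :=
  ReflTransGen M.Step (x.1.1, x.2, T.out x.1.2 y) (x'.1.1, x'.2, []) ∧ T.run x.1.2 y = x'.1.2

variable {T : Tr Q}

theorem TT.refl (x : (M.Q × Q) × ℕ) : TT M T [] x x := ⟨ReflTransGen.refl, rfl⟩

theorem TT.append {y y' : List ℕ} {x x' x'' : (M.Q × Q) × ℕ} (h : TT M T y x x')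
    (h' : TT M T y' x' x'') : TT M T (y ++ y') x x'' := by
  refine ⟨?_, by rw [T.run_append, h.2, h'.2]⟩
  rw [T.out_append, h.2]
  have := star_shift h.1 0 (T.out x'.1.2 y')
  simp only [add_zero, List.nil_append] at this
  exact this.trans h'.1

theorem TT.split {y y' : List ℕ} {x x'' : (M.Q × Q) × ℕ} (h : TT M T (y ++ y') x x'') :
    ∃ x', TT M T y x x' ∧ TT M T y' x' x'' := by
  obtain ⟨A, m, h1, h2⟩ := star_split h.1 _ _ (T.out_append _ _ _)
  exact ⟨((A, T.run x.1.2 y), m), ⟨h1, rfl⟩, ⟨h2, by rw [← h.2, T.run_append]⟩⟩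

theorem TT.shift {y : List ℕ} {c c' : M.Q × Q} {h h' : ℕ} (H : TT M T y (c, h) (c', h')) (d : ℕ) :
    TT M T y (c, h + d) (c', h' + d) := ⟨star_shift' H.1 d, H.2⟩

theorem graded_pw (M : OnePDA) (T : Tr Q) (y : List ℕ) : Graded (fun n => TT M T (pw y n)) where
  refl := TT.refl
  add := fun h1 h2 => by rw [pw_add]; exact h1.append h2
  split := fun h => by rw [pw_add] at h; exact h.split
  shift := fun d h => h.shift d

theorem out_bound [Finite Q] (T : Tr Q) (y : List ℕ) : ∃ L, ∀ q, (T.out q y).length ≤ L := by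
  obtain ⟨L, hL⟩ := (Set.finite_range fun q => (T.out q y).length).bddAbove
  exact ⟨L, fun q => hL ⟨q, rfl⟩⟩

theorem zone_end [Finite Q] (M : OnePDA) (T : Tr Q) (y : List ℕ) :
    ∃ n₀, ∀ n, n₀ ≤ n → ∀ c h c', TT M T (pw y n) (c, h) (c', 0) →
      (∃ j e, 0 < j ∧ 0 < e ∧ ∀ z, TT M T (pw y (n + z * j)) (c, h + z * e) (c', 0)) ∨
        ∃ n', n < n' ∧ TT M T (pw y n') (c, h) (c', 0) := by
  have := M.fin
  obtain ⟨L, hL⟩ := out_bound T (pw y 1)
  obtain ⟨Bd, hBd⟩ := big_down M L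
  obtain ⟨n₀, h⟩ := (graded_pw M T y).zone Bd (fun {c h c' h'} H hb => by
    obtain ⟨e, he, h1⟩ := hBd _ _ _ _ _ (hL _) H.1 hb
    exact ⟨e, he, fun i => ⟨h1 i, H.2⟩⟩)
  exact ⟨n₀, fun n hn c h' c' H => h n hn c h' c' 0 zero_le_one H⟩

theorem zone_start [Finite Q] (M : OnePDA) (T : Tr Q) (y : List ℕ) :
    ∃ n₀, ∀ n, n₀ ≤ n → ∀ c h c', TT M T (pw y n) (c', 1) (c, h) →
      (∃ j e, 0 < j ∧ 0 < e ∧ ∀ z, TT M T (pw y (n + z * j)) (c', 1) (c, h + z * e)) ∨
        ∃ n', n < n' ∧ TT M T (pw y n') (c', 1) (c, h) := by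
  have := M.fin
  obtain ⟨L, hL⟩ := out_bound T (pw y 1)
  obtain ⟨Bd, hBd⟩ := big_up M L
  obtain ⟨n₀, h⟩ := ((graded_pw M T y).rev (fun {n x z} H => by
    rw [add_comm, pw_add] at H; exact H.split)).zone Bd (fun {c h c' h'} H hb => by
    obtain ⟨e, he, h1⟩ := hBd _ _ _ _ _ (hL _) H.1 hb
    exact ⟨e, he, fun i => ⟨h1 i, H.2⟩⟩)
  exact ⟨n₀, fun n hn c h' c' H => h n hn c h' c' 1 le_rfl H⟩

end Pool.Agent.H322Z.GP
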