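import Pool.Agent.H322Z.GP.RocA

set_option autoImplicit false

/-!
# The one-counter languages `{u l v 0 l 1^|u| : l ∉ v}` escape from `G(L)`
-/

namespace Pool.Agent.H322Z.GP

open Relation

theorem first_occ (P : ℕ → Prop) : ∀ (x x' : List ℕ) {a a' : ℕ} {y y' : List ℕ},
    x ++ a :: y = x' ++ a' :: y' → (∀ c ∈ x, ¬ P c) → P a → (∀ c ∈ x', ¬ P c) → P a' →
    x = x' ∧ a = a' ∧ y = y'
  | [], [], _, _, _, _, h, _, _, _, _ => by simpa using h
  | [], c :: x', _, _, _, _, h, _, ha, hx', _ => by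
    simp only [List.nil_append, List.cons_append, List.cons.injEq] at h
    exact absurd (h.1 ▸ ha) (hx' c (by simp))
  | c :: x, [], _, _, _, _, h, hx, _, _, ha' => by
    simp only [List.nil_append, List.cons_append, List.cons.injEq] at h
    exact absurd (h.1 ▸ ha') (hx c (by simp))
  | c :: x, c' :: x', _, _, _, _, h, hx, ha, hx', ha' => by
    simp only [List.cons_append, List.cons.injEq] at h
    obtain ⟨h1, h2, h3⟩ := first_occ P x x' h.2 (fun d hd => hx d (by simp [hd])) ha
      (fun d hd => hx' d (by simp [hd])) ha'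
    exact ⟨by rw [h.1, h1], h2, h3⟩

theorem last_occ {X Y u v : List ℕ} {l : ℕ} (h : X ++ l :: Y = u ++ l :: v) (hv : l ∉ v) :
    X.length ≤ u.length := by
  rcases List.append_eq_append_iff.mp h with ⟨a, h1, _⟩ | ⟨c, h1, h2⟩
  · rw [h1]; simp
  · cases c with
    | nil => rw [h1]; simp
    | cons d c =>
      simp only [List.cons_append, List.cons.injEq] at h2
      exact absurd (by rw [h2.2]; simp) hv

/-- states of the automaton -/
inductive KS (k : ℕ) : Type
  | s0 : KS k
  | mode (l : Fin k) : KS k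
  | hash (l : Fin k) : KS k
  | cnt : KS k
  | fin : KS k
  deriving DecidableEq, Fintype

/-- its transitions -/
inductive KT (k : ℕ) : KS k × Option ℕ × KS k × ℕ → Prop
  | push (a : Fin k) : KT k (KS.s0, some (a + 2), KS.s0, 2)
  | choose (a : Fin k) : KT k (KS.s0, some (a + 2), KS.mode a, 1)
  | skip (l a : Fin k) : a ≠ l → KT k (KS.mode l, some (a + 2), KS.mode l, 1)
  | sep (l : Fin k) : KT k (KS.mode l, some 0, KS.hash l, 1)
  | again (l : Fin k) : KT k (KS.hash l, some (l + 2), KS.cnt, 1)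
  | pop : KT k (KS.cnt, some 1, KS.cnt, 0)
  | stop : KT k (KS.cnt, none, KS.fin, 0)

theorem KT_finite (k : ℕ) : {t | KT k t}.Finite := by
  refine (((Set.finite_univ (α := KS k)).prod
    (((((Set.finite_lt_nat (k + 2)).image some).insert none)).prod
      ((Set.finite_univ (α := KS k)).prod (Set.finite_lt_nat 3))))).subset ?_
  intro t ht
  cases ht with
  | push a => simp
  | choose a => simp
  | skip l a _ => simp
  | sep l => simp
  | again l => simp
  | pop => simp
  | stop => simp

/-- the automaton -/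
def KM (k : ℕ) : OnePDA where
  Q := KS k
  fin := inferInstance
  start := KS.s0
  trans := {t | KT k t}
  fin_trans := KT_finite k
  final := {KS.fin}

/-- shape of the unread input in an accepting run -/
def KInv (k : ℕ) : KS k → ℕ → List ℕ → Prop
  | KS.fin, h, w => h = 0 ∧ w = []
  | KS.cnt, h, w => ∃ n, h = n + 1 ∧ w = List.replicate n 1
  | KS.hash l, h, w => ∃ n, h = n + 1 ∧ w = ((l : ℕ) + 2) :: List.replicate n 1
  | KS.mode l, h, w => ∃ n v, h = n + 1 ∧ (∀ a ∈ v, 2 ≤ a) ∧ (l : ℕ) + 2 ∉ v ∧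
      w = v ++ 0 :: ((l : ℕ) + 2) :: List.replicate n 1
  | KS.s0, h, w => ∃ n u v l, h = n + 1 ∧ (∀ a ∈ u, 2 ≤ a) ∧ (∀ a ∈ v, 2 ≤ a) ∧ l + 2 ∉ v ∧
      w = u ++ (l + 2) :: v ++ 0 :: (l + 2) :: List.replicate (n + u.length) 1

theorem kinv (k : ℕ) (x : (KM k).Q × ℕ × List ℕ)
    (h : ReflTransGen (KM k).Step x (KS.fin, 0, [])) : KInv k x.1 x.2.1 x.2.2 := by
  induction h using ReflTransGen.head_induction_on with
  | refl => exact ⟨rfl, rfl⟩
  | @head x y hxy _ ih =>
    cases hxy with
    | @eps p p' j h w ht =>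
      cases ht with
      | stop =>
        obtain ⟨h1, h2⟩ := ih
        exact ⟨0, by simpa using h1, h2⟩
    | @read p p' a j h w ht =>
      cases ht with
      | push a =>
        obtain ⟨n, u, v, l, h1, h2, h3, h4, h5⟩ := ih
        refine ⟨h, ((a : ℕ) + 2) :: u, v, l, rfl, ?_, h3, h4, ?_⟩
        · intro c hc
          rcases List.mem_cons.mp hc with rfl | hc
          · omega
          · exact h2 c hc
        · simp only at h1 h5 ⊢
          have e : n + u.length = h + (((a : ℕ) + 2) :: u).length := by simp; omega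
          rw [h5, e]
          rfl
      | choose a =>
        obtain ⟨n, v, h1, h2, h3, h4⟩ := ih
        refine ⟨n, [], v, a, h1, by simp, h2, h3, ?_⟩
        simp only at h4 ⊢
        rw [h4]
        rfl
      | skip l a hal =>
        obtain ⟨n, v, h1, h2, h3, h4⟩ := ih
        refine ⟨n, ((a : ℕ) + 2) :: v, h1, ?_, ?_, ?_⟩
        · intro c hc
          rcases List.mem_cons.mp hc with rfl | hc
          · omega
          · exact h2 c hc
        · intro hc
          rcases List.mem_cons.mp hc with hc | hc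
          · exact hal (Fin.ext (by omega))
          · exact h3 hc
        · simp only at h4 ⊢
          rw [h4]
          rfl
      | sep l =>
        obtain ⟨n, h1, h2⟩ := ih
        refine ⟨n, [], h1, by simp, by simp, ?_⟩
        simp only at h2 ⊢
        rw [h2]
        rfl
      | again l =>
        obtain ⟨n, h1, h2⟩ := ih
        refine ⟨n, h1, ?_⟩
        simp only at h2 ⊢
        rw [h2]
      | pop =>
        obtain ⟨n, h1, h2⟩ := ih
        refine ⟨n + 1, by simpa using h1, ?_⟩
        simp only at h2 ⊢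
        rw [h2]
        rfl

theorem k_cnt (k n : ℕ) :
    ReflTransGen (KM k).Step (KS.cnt, n + 1, List.replicate n 1) (KS.fin, 0, []) := by
  induction n with
  | zero => exact ReflTransGen.single (OnePDA.Step.eps (M := KM k) 0 [] KT.stop)
  | succ n ih => exact ih.head (OnePDA.Step.read (M := KM k) (n + 1) _ KT.pop)

theorem k_mode (k n : ℕ) (l : Fin k) (v : List ℕ) (hv : ∀ a ∈ v, 2 ≤ a ∧ a < k + 2)
    (hl : (l : ℕ) + 2 ∉ v) :
    ReflTransGen (KM k).Step (KS.mode l, n + 1, v ++ 0 :: ((l : ℕ) + 2) :: List.replicate n 1)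
      (KS.fin, 0, []) := by
  induction v with
  | nil =>
    exact ((k_cnt k n).head (OnePDA.Step.read (M := KM k) n _ (KT.again l))).head
      (OnePDA.Step.read (M := KM k) n _ (KT.sep l))
  | cons a v ih =>
    have h1 := hv a (by simp)
    obtain ⟨b, rfl⟩ : ∃ b, a = b + 2 := ⟨a - 2, by omega⟩
    refine (ih (fun c hc => hv c (by simp [hc])) (fun hc => hl (by simp [hc]))).head
      (OnePDA.Step.read (M := KM k) n _ (KT.skip l ⟨b, by omega⟩ ?_))
    intro hb
    apply hl
    rw [← hb]
    simp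

theorem k_start (k : ℕ) (l : Fin k) (v : List ℕ) (hv : ∀ a ∈ v, 2 ≤ a ∧ a < k + 2)
    (hl : (l : ℕ) + 2 ∉ v) (u : List ℕ) (hu : ∀ a ∈ u, 2 ≤ a ∧ a < k + 2) : ∀ n,
    ReflTransGen (KM k).Step (KS.s0, n + 1,
      u ++ ((l : ℕ) + 2) :: v ++ 0 :: ((l : ℕ) + 2) :: List.replicate (n + u.length) 1)
      (KS.fin, 0, []) := by
  induction u with
  | nil =>
    intro n
    exact (k_mode k n l v hv hl).head (OnePDA.Step.read (M := KM k) n _ (KT.choose l))
  | cons a u ih =>
    intro n
    have h1 := hu a (by simp)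
    obtain ⟨b, rfl⟩ : ∃ b, a = b + 2 := ⟨a - 2, by omega⟩
    have h2 := ih (fun c hc => hu c (by simp [hc])) (n + 1)
    have e : n + 1 + u.length = n + ((b + 2) :: u).length := by simp; omega
    rw [e] at h2
    exact h2.head (OnePDA.Step.read (M := KM k) n _ (KT.push ⟨b, by omega⟩))

theorem k_sound {k l n : ℕ} {X Y : List ℕ} (hX : ∀ a ∈ X, 2 ≤ a) (hY : ∀ a ∈ Y, 2 ≤ a)
    (h : X ++ (l + 2) :: Y ++ 0 :: (l + 2) :: List.replicate n 1 ∈ (KM k).language) :
    X.length ≤ n ∧ (l + 2 ∉ Y → n ≤ X.length) := by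
  obtain ⟨f, hf, h⟩ := h
  have hf' : f = KS.fin := hf
  subst hf'
  obtain ⟨m, u, v, l', h1, h2, h3, h4, h5⟩ := kinv k _ h
  simp only at h1 h5
  obtain ⟨a1, -, a3⟩ := first_occ (fun c => c = 0) _ _ h5
    (by
      intro c hc
      rcases List.mem_append.mp hc with hc | hc
      · have := hX c hc; omega
      · rcases List.mem_cons.mp hc with hc | hc
        · omega
        · have := hY c hc; omega) rfl
    (by
      intro c hc
      rcases List.mem_append.mp hc with hc | hc
      · have := h2 c hc; omega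
      · rcases List.mem_cons.mp hc with hc | hc
        · omega
        · have := h3 c hc; omega) rfl
  simp only [List.cons.injEq] at a3
  have e1 : l = l' := by omega
  subst e1
  have e2 : n = m + u.length := by simpa using congrArg List.length a3.2
  have b1 := last_occ a1 h4
  refine ⟨by omega, fun hl => ?_⟩
  have b2 := last_occ a1.symm hl
  omega

theorem roc_good {Q : Type} [Finite Q] (M : OnePDA) (T : Tr Q) (q₀ : Q) (acc : Set Q) (k : ℕ)
    (hK : ∀ u, u ∈ (KM k).language ↔ T.run q₀ u ∈ acc ∧ T.out q₀ u ∈ M.language)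
    (P p u : List ℕ) (s : ℕ) (hs : s < k) (hP : P = u ++ (s + 2) :: p)
    (hP2 : ∀ a ∈ P, 2 ≤ a ∧ a < k + 2) (hp : s + 2 ∉ p)
    (h1 : T.run (T.run q₀ P) P = T.run q₀ P) (h2 : T.run (T.run q₀ P) p = T.run q₀ P) :
    ∃ A : M.Q, (∃ j m, TT M T (pw p (j + 1)) ((A, T.run q₀ P), m) ((A, T.run q₀ P), m)) ∧
      ∀ (w : List ℕ) (m : ℕ), (∀ a ∈ w, 2 ≤ a) → s + 2 ∈ w →
        ¬ TT M T w ((A, T.run q₀ P), m) ((A, T.run q₀ P), m) := by
  have := M.fin
  set q := T.run q₀ P with hq
  have hu2 : ∀ a ∈ u, 2 ≤ a ∧ a < k + 2 := fun a ha => hP2 a (by rw [hP]; simp [ha])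
  have hp2 : ∀ a ∈ p, 2 ≤ a ∧ a < k + 2 := fun a ha => hP2 a (by rw [hP]; simp [ha])
  have hlen : P.length = u.length + p.length + 1 := by rw [hP]; simp; omega
  have hacc : ∀ (w : List ℕ) (f : M.Q) (r : Q), f ∈ M.final → r ∈ acc →
      TT M T w ((M.start, q₀), 1) ((f, r), 0) → w ∈ (KM k).language := by
    intro w f r hf hr h
    exact (hK w).mpr ⟨by rw [h.2]; exact hr, f, hf, h.1⟩
  have key1 : ∀ a b n, pw P (a + 1) ++ pw p b ++ [0, s + 2] ++ pw [1] n ∈ (KM k).language →
      n = a * P.length + u.length := by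
    intro a b n h
    have e : pw P (a + 1) ++ pw p b ++ [0, s + 2] ++ pw [1] n
        = (pw P a ++ u) ++ (s + 2) :: (p ++ pw p b) ++ 0 :: (s + 2) :: List.replicate n 1 := by
      rw [pw_succ', pw_single]
      conv_lhs => rw [hP]
      conv_rhs => rw [hP]
      simp
    rw [e] at h
    have h3 := k_sound (by
        intro c hc
        rcases List.mem_append.mp hc with hc | hc
        · exact (hP2 c (mem_pw hc)).1
        · exact (hu2 c hc).1)
      (by
        intro c hc
        rcases List.mem_append.mp hc with hc | hc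
        · exact (hp2 c hc).1
        · exact (hp2 c (mem_pw hc)).1) h
    have h4 := h3.2 (by
      intro hc
      rcases List.mem_append.mp hc with hc | hc
      · exact hp hc
      · exact hp (mem_pw hc))
    have h5 := h3.1
    rw [List.length_append, length_pw] at h4 h5
    omega
  have key2 : ∀ a b b' n w, (∀ c ∈ w, 2 ≤ c) → s + 2 ∈ w →
      pw P a ++ (pw p b ++ w ++ pw p b') ++ [0, s + 2] ++ pw [1] n ∈ (KM k).language →
      a * P.length ≤ n := by
    intro a b b' n w hw hsw h
    obtain ⟨w₁, w₂, rfl⟩ := List.append_of_mem hsw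
    have e : pw P a ++ (pw p b ++ (w₁ ++ (s + 2) :: w₂) ++ pw p b') ++ [0, s + 2] ++ pw [1] n
        = (pw P a ++ pw p b ++ w₁) ++ (s + 2) :: (w₂ ++ pw p b')
          ++ 0 :: (s + 2) :: List.replicate n 1 := by
      rw [pw_single]
      simp
    rw [e] at h
    have h3 := (k_sound (by
        intro c hc
        rcases List.mem_append.mp hc with hc | hc
        · rcases List.mem_append.mp hc with hc | hc
          · exact (hP2 c (mem_pw hc)).1
          · exact (hp2 c (mem_pw hc)).1
        · exact hw c (by simp [hc]))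
      (by
        intro c hc
        rcases List.mem_append.mp hc with hc | hc
        · exact hw c (by simp [hc])
        · exact (hp2 c (mem_pw hc)).1) h).1
    rw [List.length_append, List.length_append, length_pw] at h3
    omega
  obtain ⟨nU, hU⟩ := zone_start M T P
  obtain ⟨nB, hB⟩ := zone_end M T [1]
  set I := nU + nB with hI
  set c := Nat.card M.Q with hc
  set n := I * P.length + u.length with hn
  have hmem : pw P (I + 1) ++ pw p (c + 1) ++ [0, s + 2] ++ pw [1] n ∈ (KM k).language := by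
    have e : pw P (I + 1) ++ pw p (c + 1) ++ [0, s + 2] ++ pw [1] n
        = (pw P I ++ u) ++ (s + 2) :: (p ++ pw p (c + 1))
          ++ 0 :: (s + 2) :: List.replicate (0 + (pw P I ++ u).length) 1 := by
      rw [pw_succ', pw_single, List.length_append, length_pw, zero_add, ← hn]
      conv_lhs => rw [hP]
      conv_rhs => rw [hP]
      simp
    rw [e]
    refine ⟨KS.fin, rfl, k_start k ⟨s, hs⟩ _ ?_ ?_ _ ?_ 0⟩
    · intro c hc
      rcases List.mem_append.mp hc with hc | hc
      · exact hp2 c hc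
      · exact hp2 c (mem_pw hc)
    · intro hc
      rcases List.mem_append.mp hc with hc | hc
      · exact hp hc
      · exact hp (mem_pw hc)
    · intro c hc
      rcases List.mem_append.mp hc with hc | hc
      · exact hP2 c (mem_pw hc)
      · exact hu2 c hc
  obtain ⟨hr, f, hf, hrun⟩ := (hK _).mp hmem
  set r := T.run q₀ (pw P (I + 1) ++ pw p (c + 1) ++ [0, s + 2] ++ pw [1] n) with hrdef
  have hT : TT M T (pw P (I + 1) ++ pw p (c + 1) ++ [0, s + 2] ++ pw [1] n)
      ((M.start, q₀), 1) ((f, r), 0) := ⟨hrun, rfl⟩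
  obtain ⟨⟨c₃, m₃⟩, hT, t4⟩ := hT.split
  obtain ⟨⟨c₂, m₂⟩, hT, t3⟩ := hT.split
  obtain ⟨⟨c₁, m₁⟩, t1, t2⟩ := hT.split
  have hnI : I ≤ n := by
    have : I * 1 ≤ I * P.length := Nat.mul_le_mul_left _ (by omega)
    omega
  rcases hU (I + 1) (by omega) _ _ _ t1 with ⟨jU, eU, hjU, heU, hU⟩ | ⟨I', hI', t1'⟩
  swap
  · exfalso
    obtain ⟨I'', rfl⟩ : ∃ I'', I' = I'' + 1 := ⟨I' - 1, by omega⟩
    have h3 := key1 _ _ _ (hacc _ f r hf hr (((t1'.append t2).append t3).append t4))
    have h4 : (I + 1) * P.length ≤ I'' * P.length := Nat.mul_le_mul_right _ (by omega)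
    rw [Nat.succ_mul] at h4
    omega
  rcases hB n (by omega) _ _ _ t4 with ⟨jB, eB, hjB, heB, hB⟩ | ⟨n', hn', t4'⟩
  swap
  · exfalso
    have h3 := key1 _ _ _ (hacc _ f r hf hr (((t1.append t2).append t3).append t4'))
    omega
  have G := graded_pw M T p
  obtain ⟨g, g0, gn, gs⟩ := G.path t2
  have hc₁ : c₁.2 = q := by
    have := t1.2
    simp only at this
    rw [← this, pw, T.run_append, ← hq, T.run_pw_fix h1]
  have hgq : ∀ i ≤ c + 1, (g i).1.2 = q := by
    intro i hi
    have := (G.seg' gs (Nat.zero_le i) hi).2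
    rw [← this, g0, hc₁, T.run_pw_fix h2]
  obtain ⟨i, j, hij, hj, hcol⟩ := pigeon (fun i => (g i).1.1)
  have a1 := G.seg' gs (Nat.zero_le i) (by omega)
  have a2 := G.seg' gs hij.le (by omega)
  have a3 := G.seg' gs (show j ≤ c + 1 by omega) le_rfl
  have ei : g i = (((g i).1.1, q), (g i).2) :=
    Prod.ext (Prod.ext rfl (hgq i (by omega))) rfl
  have ej : g j = (((g i).1.1, q), (g j).2) :=
    Prod.ext (Prod.ext hcol.symm (hgq j (by omega))) rfl
  rw [g0, ei] at a1
  rw [ei, ej] at a2
  rw [gn, ej] at a3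
  generalize (g i).1.1 = A at a1 a2 a3
  generalize (g i).2 = mi at a1 a2 a3
  generalize (g j).2 = mj at a2 a3
  rcases lt_trichotomy mi mj with hlt | rfl | hlt
  · exfalso
    obtain ⟨e, rfl⟩ : ∃ e, mj = mi + e := ⟨mj - mi, by omega⟩
    have b1 := G.up a2 (eB + 1)
    have e1 : mi + (eB + 1) * e = mi + e + e * eB := by ring
    rw [e1] at b1
    have b2 := G.add (G.add a1 b1) (G.shift (e * eB) a3)
    have h3 := key1 _ _ _ (hacc _ f r hf hr
      (((t1.append b2).append (t3.shift (e * eB))).append (hB e)))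
    have : 0 < e * jB := Nat.mul_pos (by omega) hjB
    omega
  · refine ⟨A, ⟨j - i - 1, mi, ?_⟩, fun w m hw hsw hloop => ?_⟩
    · have e1 : j - i - 1 + 1 = j - i := by omega
      rw [e1]
      exact a2
    · have b1 := hU (eB * m)
      have e1 : eU * m * eB = eB * m * eU := by ring
      have b4 := hB (eU * m)
      rw [e1] at b4
      set z := eB * m * eU with hz
      have hmz : m ≤ mi + z := by
        have : 1 * m * 1 ≤ z := Nat.mul_le_mul (Nat.mul_le_mul_right _ heB) heU
        omega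
      have b5 := hloop.shift (mi + z - m)
      rw [Nat.add_sub_cancel' hmz] at b5
      have e2 : I + 1 + eB * m * jU = I + eB * m * jU + 1 := by ring
      rw [e2] at b1
      have h3 := key1 _ _ _ (hacc _ f r hf hr
        (((b1.append (G.add (G.shift z a1) (G.shift z a3))).append (t3.shift z)).append b4))
      have h4 := key2 _ _ _ _ w hw hsw (hacc _ f r hf hr
        (((b1.append (((a1.shift z).append b5).append (a3.shift z))).append
          (t3.shift z)).append b4))
      rw [Nat.succ_mul] at h4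
      omega
  · exfalso
    obtain ⟨e, rfl⟩ : ∃ e, mi = mj + e := ⟨mi - mj, by omega⟩
    have b1 := G.down a2 (eU + 1)
    have e1 : mj + (eU + 1) * e = mj + e + e * eU := by ring
    rw [e1] at b1
    have b2 := G.add (G.add (G.shift (e * eU) a1) b1) a3
    have b3 := hU e
    have e2 : I + 1 + e * jU = I + e * jU + 1 := by ring
    rw [e2] at b3
    have h3 := key1 _ _ _ (hacc _ f r hf hr (((b3.append b2).append t3).append t4))
    have h4 : 0 < e * jU * P.length := Nat.mul_pos (Nat.mul_pos (by omega) hjU) (by omega)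
    rw [add_mul] at h3
    omega

theorem roc_main (L : Language ℕ) (hL : IsRoc L) : ∃ K, IsRoc K ∧ ¬ InG L K := by
  obtain ⟨M, rfl⟩ := hL
  have := M.fin
  refine ⟨(KM (Nat.card M.Q + 1)).language, ⟨_, rfl⟩, fun h => ?_⟩
  obtain ⟨Q, hQ, T, q₀, acc, hK⟩ := single_tr h
  obtain ⟨p, hp1, hp2, hp3⟩ := nested T
  set k := Nat.card M.Q + 1 with hk
  have h1 : ∀ s, ∃ A : M.Q, s < k →
      (∃ j m, TT M T (pw (p s) (j + 1)) ((A, T.run q₀ (p k)), m) ((A, T.run q₀ (p k)), m)) ∧
      ∀ (w : List ℕ) (m : ℕ), (∀ a ∈ w, 2 ≤ a) → s + 2 ∈ w →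
        ¬ TT M T w ((A, T.run q₀ (p k)), m) ((A, T.run q₀ (p k)), m) := by
    intro s
    by_cases hs : s < k
    · obtain ⟨u, hu⟩ := hp2 s k hs
      obtain ⟨A, hA⟩ := roc_good M T q₀ acc k hK (p k) (p s) u s hs hu (hp1 k)
        (fun h => by have := hp1 s _ h; omega) (hp3 k k le_rfl q₀) (hp3 s k hs.le q₀)
      exact ⟨A, fun _ => hA⟩
    · exact ⟨M.start, fun h => absurd h hs⟩
  choose A hA using h1
  obtain ⟨s, t, hst, ht, hc⟩ := pigeon A
  obtain ⟨j, m, h2⟩ := (hA t (by omega)).1
  rw [← hc] at h2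
  refine (hA s (by omega)).2 _ m (fun a ha => (hp1 t a (mem_pw ha)).1) ?_ h2
  obtain ⟨u, hu⟩ := hp2 s t hst
  rw [pw, hu]
  simp

end Pool.Agent.H322Z.GP
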